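import Mathlib

/-!
# Bilinear sums of Legendre symbols modulo two primes
-/

set_option autoImplicit false

namespace Pool.Agent.MP_af3031_nt

open Finset

section one

variable (p : ℕ) [Fact p.Prime]

/-- The quadratic character modulo `p` with real values. -/
noncomputable def qc (x : ZMod p) : ℝ := ((quadraticChar (ZMod p) x : ℤ) : ℝ)

private theorem sum_int (hp : p ≠ 2) {e : ZMod p} (he : e ≠ 0) (z : ZMod p) :
    ∑ x : ZMod p, quadraticChar (ZMod p) (x - z) * quadraticChar (ZMod p) (x - (z + e)) =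
      (-1 : ℤ) := by
  have hchar : ringChar (ZMod p) ≠ 2 := by rw [ZMod.ringChar_zmod_n]; exact hp
  have hne : quadraticChar (ZMod p) ≠ 1 := quadraticChar_ne_one hchar
  have hinv : (quadraticChar (ZMod p))⁻¹ = quadraticChar (ZMod p) :=
    MulChar.IsQuadratic.inv (quadraticChar_isQuadratic (ZMod p))
  have hJ := jacobiSum_nontrivial_inv hne
  rw [hinv] at hJ
  have h1 : ∑ x : ZMod p, quadraticChar (ZMod p) (x - z) * quadraticChar (ZMod p) (x - (z + e)) =
      ∑ t : ZMod p, quadraticChar (ZMod p) (-1) *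
        (quadraticChar (ZMod p) t * quadraticChar (ZMod p) (1 - t)) := by
    symm
    refine Fintype.sum_equiv ((Equiv.mulLeft₀ e he).trans (Equiv.addLeft z)) _ _ fun t => ?_
    have e1 : ((Equiv.mulLeft₀ e he).trans (Equiv.addLeft z)) t = z + e * t := rfl
    have e2 : z + e * t - z = e * t := by ring
    have e3 : z + e * t - (z + e) = e * (-1 * (1 - t)) := by ring
    rw [e1, e2, e3, map_mul, map_mul, map_mul]
    have hsq : quadraticChar (ZMod p) e ^ 2 = 1 := quadraticChar_sq_one he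
    linear_combination (-(quadraticChar (ZMod p) (-1) *
      (quadraticChar (ZMod p) t * quadraticChar (ZMod p) (1 - t)))) * hsq
  have hneg : quadraticChar (ZMod p) (-1) ^ 2 = 1 :=
    quadraticChar_sq_one (neg_ne_zero.2 one_ne_zero)
  rw [h1, ← Finset.mul_sum]
  have hJ' : ∑ t : ZMod p, quadraticChar (ZMod p) t * quadraticChar (ZMod p) (1 - t) =
      -quadraticChar (ZMod p) (-1) := hJ
  rw [hJ']
  linear_combination (-1 : ℤ) * hneg

/-- Correlations of the quadratic character. -/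
theorem sum_qc_qc (hp : p ≠ 2) (z w : ZMod p) :
    ∑ x : ZMod p, qc p (x - z) * qc p (x - w) = (if z = w then (p : ℝ) else 0) - 1 := by
  by_cases h : z = w
  · subst h
    rw [if_pos rfl]
    have h1 : ∑ x : ZMod p, qc p (x - z) * qc p (x - z) =
        ∑ x : ZMod p, if x = z then (0 : ℝ) else 1 := by
      refine Finset.sum_congr rfl fun x _ => ?_
      unfold qc
      split_ifs with hx
      · rw [hx, sub_self, quadraticChar_zero]
        simp
      · have h2 : quadraticChar (ZMod p) (x - z) ^ 2 = 1 :=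
          quadraticChar_sq_one (sub_ne_zero.2 hx)
        rw [← sq]
        exact_mod_cast h2
    rw [h1]
    have h3 : ∀ x : ZMod p, (if x = z then (0 : ℝ) else 1) = 1 - (if x = z then 1 else 0) := by
      intro x
      split_ifs <;> ring
    rw [Finset.sum_congr rfl fun x _ => h3 x, Finset.sum_sub_distrib, Finset.sum_const,
      Finset.sum_ite_eq', if_pos (Finset.mem_univ z), Finset.card_univ, ZMod.card, nsmul_eq_mul,
      mul_one]
  · rw [if_neg h]
    have he : w - z ≠ 0 := sub_ne_zero.2 (Ne.symm h)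
    have h1 := sum_int p hp he z
    have h2 : z + (w - z) = w := by ring
    rw [h2] at h1
    unfold qc
    have h3 : ((∑ x : ZMod p, quadraticChar (ZMod p) (x - z) *
        quadraticChar (ZMod p) (x - w) : ℤ) : ℝ) = ((-1 : ℤ) : ℝ) := by rw [h1]
    push_cast at h3
    rw [h3]
    ring

/-- The operator norm of the matrix of quadratic characters. -/
theorem norm_one (hp : p ≠ 2) (h : ZMod p → ℝ) :
    ∑ x : ZMod p, (∑ z : ZMod p, qc p (x - z) * h z) ^ 2 ≤ p * ∑ z : ZMod p, h z ^ 2 := by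
  have h1 : ∀ x : ZMod p, (∑ z : ZMod p, qc p (x - z) * h z) ^ 2 =
      ∑ z : ZMod p, ∑ w : ZMod p, (h z * h w) * (qc p (x - z) * qc p (x - w)) := by
    intro x
    rw [sq, Finset.sum_mul_sum]
    refine Finset.sum_congr rfl fun z _ => Finset.sum_congr rfl fun w _ => ?_
    ring
  have h2 : ∑ x : ZMod p, (∑ z : ZMod p, qc p (x - z) * h z) ^ 2 =
      ∑ z : ZMod p, ∑ w : ZMod p, (h z * h w) * ((if z = w then (p : ℝ) else 0) - 1) := by
    rw [Finset.sum_congr rfl fun x _ => h1 x, Finset.sum_comm]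
    refine Finset.sum_congr rfl fun z _ => ?_
    rw [Finset.sum_comm]
    refine Finset.sum_congr rfl fun w _ => ?_
    rw [← Finset.mul_sum, sum_qc_qc p hp]
  have h3 : ∑ z : ZMod p, ∑ w : ZMod p, (h z * h w) * ((if z = w then (p : ℝ) else 0) - 1) =
      p * ∑ z : ZMod p, h z ^ 2 - (∑ z : ZMod p, h z) ^ 2 := by
    rw [sq (∑ z : ZMod p, h z), Finset.sum_mul_sum, Finset.mul_sum, ← Finset.sum_sub_distrib]
    refine Finset.sum_congr rfl fun z _ => ?_
    have h4 : ∀ w : ZMod p, (h z * h w) * ((if z = w then (p : ℝ) else 0) - 1) =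
        (if z = w then (p : ℝ) * (h z * h w) else 0) - h z * h w := by
      intro w
      split_ifs <;> ring
    rw [Finset.sum_congr rfl fun w _ => h4 w, Finset.sum_sub_distrib, Finset.sum_ite_eq,
      if_pos (Finset.mem_univ z)]
    ring
  rw [h2, h3]
  have := sq_nonneg (∑ z : ZMod p, h z)
  linarith

end one

section two

variable (p q : ℕ) [Fact p.Prime] [Fact q.Prime]

/-- The same for two primes. -/
theorem norm_two (hp : p ≠ 2) (hq : q ≠ 2) (g : ZMod p → ZMod q → ℝ) :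
    ∑ x : ZMod p, ∑ y : ZMod q,
      (∑ z : ZMod p, ∑ w : ZMod q, qc p (x - z) * qc q (y - w) * g z w) ^ 2 ≤
      (p * q : ℝ) * ∑ z : ZMod p, ∑ w : ZMod q, g z w ^ 2 := by
  have h1 : ∀ (x : ZMod p) (y : ZMod q),
      ∑ z : ZMod p, ∑ w : ZMod q, qc p (x - z) * qc q (y - w) * g z w =
        ∑ z : ZMod p, qc p (x - z) * ∑ w : ZMod q, qc q (y - w) * g z w := by
    intro x y
    refine Finset.sum_congr rfl fun z _ => ?_
    rw [Finset.mul_sum]
    refine Finset.sum_congr rfl fun w _ => ?_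
    ring
  simp_rw [h1]
  rw [Finset.sum_comm]
  calc ∑ y : ZMod q, ∑ x : ZMod p,
        (∑ z : ZMod p, qc p (x - z) * ∑ w : ZMod q, qc q (y - w) * g z w) ^ 2
      ≤ ∑ y : ZMod q, (p : ℝ) * ∑ z : ZMod p, (∑ w : ZMod q, qc q (y - w) * g z w) ^ 2 :=
        Finset.sum_le_sum fun y _ => norm_one p hp fun z => ∑ w : ZMod q, qc q (y - w) * g z w
    _ = (p : ℝ) * ∑ z : ZMod p, ∑ y : ZMod q, (∑ w : ZMod q, qc q (y - w) * g z w) ^ 2 := by
        rw [← Finset.mul_sum, Finset.sum_comm]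
    _ ≤ (p : ℝ) * ∑ z : ZMod p, ((q : ℝ) * ∑ w : ZMod q, g z w ^ 2) := by
        refine mul_le_mul_of_nonneg_left (Finset.sum_le_sum fun z _ => norm_one q hq (g z)) ?_
        exact Nat.cast_nonneg p
    _ = _ := by rw [← Finset.mul_sum, mul_assoc]

end two

/-- The number of coincidences modulo two primes. -/
noncomputable def coll {ι : Type} (p q : ℕ) (I : Finset ι) (φ : ι → ℤ) : ℝ :=
  ∑ i ∈ I, ∑ j ∈ I, if ((p : ℤ) ∣ φ i - φ j ∧ (q : ℤ) ∣ φ i - φ j) then 1 else 0

section bil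

variable (p q : ℕ) [Fact p.Prime] [Fact q.Prime]

/-- The number of elements in a pair of residue classes. -/
private noncomputable def fib {ι : Type} (I : Finset ι) (φ : ι → ℤ) (x : ZMod p) (y : ZMod q) :
    ℝ := ∑ i ∈ I, if ((φ i : ZMod p) = x ∧ (φ i : ZMod q) = y) then 1 else 0

private theorem sum_fib {ι : Type} (I : Finset ι) (φ : ι → ℤ) (F : ZMod p → ZMod q → ℝ) :
    ∑ i ∈ I, F (φ i : ZMod p) (φ i : ZMod q) =
      ∑ x : ZMod p, ∑ y : ZMod q, fib p q I φ x y * F x y := by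
  have h1 : ∀ (x : ZMod p) (y : ZMod q), fib p q I φ x y * F x y =
      ∑ i ∈ I, if (φ i : ZMod p) = x then (if (φ i : ZMod q) = y then F x y else 0) else 0 := by
    intro x y
    unfold fib
    rw [Finset.sum_mul]
    refine Finset.sum_congr rfl fun i _ => ?_
    by_cases h1 : (φ i : ZMod p) = x
    · by_cases h2 : (φ i : ZMod q) = y
      · rw [if_pos ⟨h1, h2⟩, if_pos h1, if_pos h2, one_mul]
      · rw [if_neg (fun h => h2 h.2), if_pos h1, if_neg h2, zero_mul]
    · rw [if_neg (fun h => h1 h.1), if_neg h1, zero_mul]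
  simp_rw [h1]
  have h2 : ∀ x : ZMod p, ∑ y : ZMod q, ∑ i ∈ I,
      (if (φ i : ZMod p) = x then (if (φ i : ZMod q) = y then F x y else 0) else 0) =
      ∑ i ∈ I, if (φ i : ZMod p) = x then F x (φ i : ZMod q) else 0 := by
    intro x
    rw [Finset.sum_comm]
    refine Finset.sum_congr rfl fun i _ => ?_
    by_cases h1 : (φ i : ZMod p) = x
    · simp only [if_pos h1]
      rw [Finset.sum_ite_eq, if_pos (Finset.mem_univ _)]
    · simp only [if_neg h1]
      exact Finset.sum_const_zero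
  simp_rw [h2]
  rw [Finset.sum_comm]
  refine Finset.sum_congr rfl fun i _ => ?_
  rw [Finset.sum_ite_eq, if_pos (Finset.mem_univ _)]

private theorem sum_fib_sq {ι : Type} (I : Finset ι) (φ : ι → ℤ) :
    ∑ x : ZMod p, ∑ y : ZMod q, fib p q I φ x y ^ 2 = coll p q I φ := by
  have h1 := sum_fib p q I φ (fib p q I φ)
  have h2 : ∑ x : ZMod p, ∑ y : ZMod q, fib p q I φ x y ^ 2 =
      ∑ x : ZMod p, ∑ y : ZMod q, fib p q I φ x y * fib p q I φ x y := by
    refine Finset.sum_congr rfl fun x _ => Finset.sum_congr rfl fun y _ => ?_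
    ring
  rw [h2, ← h1]
  unfold coll fib
  refine Finset.sum_congr rfl fun i _ => Finset.sum_congr rfl fun j _ => ?_
  have h3 : ((φ j : ZMod p) = (φ i : ZMod p) ∧ (φ j : ZMod q) = (φ i : ZMod q)) ↔
      ((p : ℤ) ∣ φ i - φ j ∧ (q : ℤ) ∣ φ i - φ j) := by
    rw [ZMod.intCast_eq_intCast_iff_dvd_sub, ZMod.intCast_eq_intCast_iff_dvd_sub]
  simp only [h3]

/-- The bilinear bound. -/
theorem bil_qc (hp : p ≠ 2) (hq : q ≠ 2) {ι κ : Type} (I : Finset ι) (J : Finset κ)
    (φ : ι → ℤ) (ψ : κ → ℤ) :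
    |∑ i ∈ I, ∑ j ∈ J, qc p ((φ i : ZMod p) - (ψ j : ZMod p)) *
      qc q ((φ i : ZMod q) - (ψ j : ZMod q))| ≤
      √(p * q : ℝ) * √(coll p q I φ) * √(coll p q J ψ) := by
  set F : ZMod p → ZMod q → ℝ := fun x y => ∑ z : ZMod p, ∑ w : ZMod q,
    qc p (x - z) * qc q (y - w) * fib p q J ψ z w with hF
  have hF1 : ∀ (x : ZMod p) (y : ZMod q), ∑ j ∈ J, qc p (x - (ψ j : ZMod p)) *
      qc q (y - (ψ j : ZMod q)) = F x y := by
    intro x y
    rw [sum_fib p q J ψ (fun z w => qc p (x - z) * qc q (y - w))]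
    refine Finset.sum_congr rfl fun z _ => Finset.sum_congr rfl fun w _ => ?_
    ring
  have h1 : ∑ i ∈ I, ∑ j ∈ J, qc p ((φ i : ZMod p) - (ψ j : ZMod p)) *
      qc q ((φ i : ZMod q) - (ψ j : ZMod q)) =
      ∑ x : ZMod p, ∑ y : ZMod q, fib p q I φ x y * F x y := by
    rw [← sum_fib p q I φ F]
    exact Finset.sum_congr rfl fun i _ => hF1 _ _
  have h2 : (∑ x : ZMod p, ∑ y : ZMod q, fib p q I φ x y * F x y) ^ 2 ≤
      (∑ x : ZMod p, ∑ y : ZMod q, fib p q I φ x y ^ 2) *
        ∑ x : ZMod p, ∑ y : ZMod q, F x y ^ 2 := by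
    have h3 := Finset.sum_mul_sq_le_sq_mul_sq (Finset.univ : Finset (ZMod p × ZMod q))
      (fun u => fib p q I φ u.1 u.2) (fun u => F u.1 u.2)
    simp only [Fintype.sum_prod_type] at h3
    exact h3
  have h4 : ∑ x : ZMod p, ∑ y : ZMod q, F x y ^ 2 ≤ (p * q : ℝ) * coll p q J ψ := by
    rw [← sum_fib_sq p q J ψ]
    exact norm_two p q hp hq (fib p q J ψ)
  have hcI : 0 ≤ coll p q I φ := by
    rw [← sum_fib_sq p q I φ]
    positivity
  have hcJ : 0 ≤ coll p q J ψ := by
    rw [← sum_fib_sq p q J ψ]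
    positivity
  rw [h1]
  refine abs_le_of_sq_le_sq ?_ (by positivity)
  calc (∑ x : ZMod p, ∑ y : ZMod q, fib p q I φ x y * F x y) ^ 2
      ≤ coll p q I φ * ((p * q : ℝ) * coll p q J ψ) := by
        refine h2.trans ?_
        rw [sum_fib_sq p q I φ]
        exact mul_le_mul_of_nonneg_left h4 hcI
    _ = (√(p * q : ℝ) * √(coll p q I φ) * √(coll p q J ψ)) ^ 2 := by
        rw [mul_pow, mul_pow, Real.sq_sqrt (by positivity), Real.sq_sqrt hcI, Real.sq_sqrt hcJ]
        ring

end bil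

end Pool.Agent.MP_af3031_nt
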