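import Mathlib
import Pool.Agent.Lib.MP_af3031_nt.OnePrime

/-!
# The energy of a set of squares through a set of primes
-/

set_option autoImplicit false

namespace Pool.Agent.MP_af3031_nt

open Finset

/-- The number of primes of `P` dividing `n`. -/
noncomputable def wt (P : Finset ℕ) (n : ℤ) : ℝ := ∑ p ∈ P, if (p : ℤ) ∣ n then 1 else 0

/-- The quadratic symbol, as a real number. -/
noncomputable def chi (p : ℕ) (n : ℤ) : ℝ := ((jacobiSym n p : ℤ) : ℝ)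

/-- The sum of the quadratic symbols. -/
noncomputable def csum (P : Finset ℕ) (n : ℤ) : ℝ := ∑ p ∈ P, chi p n

theorem chi_eq (p : ℕ) [Fact p.Prime] (n : ℤ) : chi p n = qc p (n : ZMod p) := by
  unfold chi qc
  rw [← jacobiSym.legendreSym.to_jacobiSym p n]
  rfl

theorem wt_sq (P : Finset ℕ) (n : ℤ) :
    wt P n ^ 2 = ∑ p ∈ P, ∑ q ∈ P, if ((p : ℤ) ∣ n ∧ (q : ℤ) ∣ n) then 1 else 0 := by
  unfold wt
  rw [sq, Finset.sum_mul_sum]
  refine Finset.sum_congr rfl fun p _ => Finset.sum_congr rfl fun q _ => ?_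
  by_cases h1 : (p : ℤ) ∣ n
  · by_cases h2 : (q : ℤ) ∣ n
    · rw [if_pos h1, if_pos h2, if_pos ⟨h1, h2⟩, one_mul]
    · rw [if_pos h1, if_neg h2, if_neg fun h => h2 h.2, mul_zero]
  · rw [if_neg h1, zero_mul, if_neg fun h => h1 h.1]

theorem sum_coll {ι : Type} (P : Finset ℕ) (I : Finset ι) (φ : ι → ℤ) :
    ∑ p ∈ P, ∑ q ∈ P, coll p q I φ = ∑ i ∈ I, ∑ j ∈ I, wt P (φ i - φ j) ^ 2 := by
  unfold coll
  simp_rw [wt_sq]
  have h1 : ∀ p ∈ P, ∑ q ∈ P, ∑ i ∈ I, ∑ j ∈ I,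
      (if ((p : ℤ) ∣ φ i - φ j ∧ (q : ℤ) ∣ φ i - φ j) then (1 : ℝ) else 0) =
      ∑ i ∈ I, ∑ j ∈ I, ∑ q ∈ P,
      (if ((p : ℤ) ∣ φ i - φ j ∧ (q : ℤ) ∣ φ i - φ j) then (1 : ℝ) else 0) := by
    intro p _
    rw [Finset.sum_comm]
    refine Finset.sum_congr rfl fun i _ => ?_
    rw [Finset.sum_comm]
  rw [Finset.sum_congr rfl h1, Finset.sum_comm]
  refine Finset.sum_congr rfl fun i _ => ?_
  rw [Finset.sum_comm]

theorem coll_nonneg {ι : Type} (p q : ℕ) (I : Finset ι) (φ : ι → ℤ) : 0 ≤ coll p q I φ := by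
  unfold coll
  refine Finset.sum_nonneg fun i _ => Finset.sum_nonneg fun j _ => ?_
  split_ifs <;> norm_num

theorem wt_nonneg (P : Finset ℕ) (n : ℤ) : 0 ≤ wt P n := by
  unfold wt
  refine Finset.sum_nonneg fun i _ => ?_
  split_ifs <;> norm_num

theorem wt_le (P : Finset ℕ) (n : ℤ) : wt P n ≤ P.card := by
  unfold wt
  have h1 : ∑ p ∈ P, (if (p : ℤ) ∣ n then (1 : ℝ) else 0) ≤ ∑ p ∈ P, (1 : ℝ) := by
    refine Finset.sum_le_sum fun i _ => ?_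
    split_ifs <;> norm_num
  simpa using h1

/-- The large-sieve type bound for the sums of quadratic symbols. -/
theorem csum_sq_le {ι κ : Type} (P : Finset ℕ) (Y : ℝ) (hP : ∀ p ∈ P, p.Prime ∧ p ≠ 2)
    (hY : ∀ p ∈ P, (p : ℝ) ≤ Y) (hY0 : 0 ≤ Y) (I : Finset ι) (J : Finset κ)
    (φ : ι → ℤ) (ψ : κ → ℤ) :
    ∑ i ∈ I, ∑ j ∈ J, csum P (φ i - ψ j) ^ 2 ≤
      Y * (√(∑ i ∈ I, ∑ j ∈ I, wt P (φ i - φ j) ^ 2) *
        √(∑ i ∈ J, ∑ j ∈ J, wt P (ψ i - ψ j) ^ 2)) := by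
  have h1 : ∑ i ∈ I, ∑ j ∈ J, csum P (φ i - ψ j) ^ 2 =
      ∑ p ∈ P, ∑ q ∈ P, ∑ i ∈ I, ∑ j ∈ J, chi p (φ i - ψ j) * chi q (φ i - ψ j) := by
    have h2 : ∀ i ∈ I, ∑ j ∈ J, csum P (φ i - ψ j) ^ 2 =
        ∑ p ∈ P, ∑ q ∈ P, ∑ j ∈ J, chi p (φ i - ψ j) * chi q (φ i - ψ j) := by
      intro i _
      have h3 : ∀ j ∈ J, csum P (φ i - ψ j) ^ 2 =
          ∑ p ∈ P, ∑ q ∈ P, chi p (φ i - ψ j) * chi q (φ i - ψ j) := by
        intro j _
        unfold csum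
        rw [sq, Finset.sum_mul_sum]
      rw [Finset.sum_congr rfl h3, Finset.sum_comm]
      refine Finset.sum_congr rfl fun p _ => ?_
      rw [Finset.sum_comm]
    rw [Finset.sum_congr rfl h2, Finset.sum_comm]
    refine Finset.sum_congr rfl fun p _ => ?_
    rw [Finset.sum_comm]
  rw [h1]
  have h4 : ∀ p ∈ P, ∀ q ∈ P, ∑ i ∈ I, ∑ j ∈ J, chi p (φ i - ψ j) * chi q (φ i - ψ j) ≤
      Y * (√(coll p q I φ) * √(coll p q J ψ)) := by
    intro p hp q hq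
    have : Fact p.Prime := ⟨(hP p hp).1⟩
    have : Fact q.Prime := ⟨(hP q hq).1⟩
    have h5 := bil_qc p q (hP p hp).2 (hP q hq).2 I J φ ψ
    have h6 : ∑ i ∈ I, ∑ j ∈ J, chi p (φ i - ψ j) * chi q (φ i - ψ j) =
        ∑ i ∈ I, ∑ j ∈ J, qc p ((φ i : ZMod p) - (ψ j : ZMod p)) *
          qc q ((φ i : ZMod q) - (ψ j : ZMod q)) := by
      refine Finset.sum_congr rfl fun i _ => Finset.sum_congr rfl fun j _ => ?_
      rw [chi_eq, chi_eq]
      push_cast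
      rfl
    rw [h6]
    refine (le_abs_self _).trans (h5.trans ?_)
    rw [mul_assoc]
    refine mul_le_mul_of_nonneg_right ?_ (by positivity)
    rw [Real.sqrt_le_left hY0, sq]
    exact mul_le_mul (hY p hp) (hY q hq) (Nat.cast_nonneg q) hY0
  have h7 : ∑ p ∈ P, ∑ q ∈ P, √(coll p q I φ) * √(coll p q J ψ) ≤
      √(∑ p ∈ P, ∑ q ∈ P, coll p q I φ) * √(∑ p ∈ P, ∑ q ∈ P, coll p q J ψ) := by
    have h8 := Real.sum_mul_le_sqrt_mul_sqrt (P ×ˢ P) (fun u => √(coll u.1 u.2 I φ))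
      (fun u => √(coll u.1 u.2 J ψ))
    rw [Finset.sum_product, Finset.sum_product, Finset.sum_product] at h8
    simp only [Real.sq_sqrt (coll_nonneg _ _ _ _)] at h8
    exact h8
  calc ∑ p ∈ P, ∑ q ∈ P, ∑ i ∈ I, ∑ j ∈ J, chi p (φ i - ψ j) * chi q (φ i - ψ j)
      ≤ ∑ p ∈ P, ∑ q ∈ P, Y * (√(coll p q I φ) * √(coll p q J ψ)) :=
        Finset.sum_le_sum fun p hp => Finset.sum_le_sum fun q hq => h4 p hp q hq
    _ = Y * ∑ p ∈ P, ∑ q ∈ P, √(coll p q I φ) * √(coll p q J ψ) := by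
        rw [Finset.mul_sum]
        refine Finset.sum_congr rfl fun p _ => ?_
        rw [Finset.mul_sum]
    _ ≤ Y * (√(∑ p ∈ P, ∑ q ∈ P, coll p q I φ) * √(∑ p ∈ P, ∑ q ∈ P, coll p q J ψ)) :=
        mul_le_mul_of_nonneg_left h7 hY0
    _ = _ := by rw [sum_coll, sum_coll]

/-- On squares the symbol sum is the number of primes not dividing. -/
theorem csum_square (P : Finset ℕ) (hP : ∀ p ∈ P, p.Prime) (d : ℕ) (hd : IsSquare d) :
    csum P (d : ℤ) = P.card - wt P (d : ℤ) := by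
  unfold csum wt
  have h1 : ∀ p ∈ P, chi p (d : ℤ) = 1 - (if (p : ℤ) ∣ (d : ℤ) then 1 else 0) := by
    intro p hp
    have : Fact p.Prime := ⟨hP p hp⟩
    obtain ⟨m, hm⟩ := hd
    rw [chi_eq]
    have h2 : ((d : ℤ) : ZMod p) = (m : ZMod p) ^ 2 := by
      rw [hm]
      push_cast
      ring
    have h3 : (p : ℤ) ∣ (d : ℤ) ↔ ((d : ℤ) : ZMod p) = 0 :=
      (ZMod.intCast_zmod_eq_zero_iff_dvd _ _).symm
    unfold qc
    by_cases h4 : (p : ℤ) ∣ (d : ℤ)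
    · rw [if_pos h4, h3.1 h4, quadraticChar_zero]
      simp
    · rw [if_neg h4]
      have h5 : (m : ZMod p) ≠ 0 := by
        intro h6
        apply h4
        rw [h3, h2, h6]
        ring
      rw [h2, quadraticChar_sq_one' h5]
      simp
  rw [Finset.sum_congr rfl h1, Finset.sum_sub_distrib]
  simp

end Pool.Agent.MP_af3031_nt
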