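import Mathlib
import Pool.Agent.Lib.MP_af3031_nt.Energy

/-!
# The energy of a set of squares through a set of primes
-/

set_option autoImplicit false

namespace Pool.Agent.MP_af3031_nt

open Finset

theorem sum_wt_sq_le {ι : Type} (P : Finset ℕ) (I : Finset ι) (φ : ι → ℤ) (B T : ℝ)
    (h : ∀ i ∈ I, ∀ j ∈ I, φ i ≠ φ j → wt P (φ i - φ j) ≤ B)
    (hT : ∀ i ∈ I, ∀ S ⊆ I, (∀ j ∈ S, φ i = φ j) → (S.card : ℝ) ≤ T) :
    ∑ i ∈ I, ∑ j ∈ I, wt P (φ i - φ j) ^ 2 ≤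
      I.card * (T * (P.card : ℝ) ^ 2 + I.card * B ^ 2) := by
  classical
  have h1 : ∀ i ∈ I, ∑ j ∈ I, wt P (φ i - φ j) ^ 2 ≤
      T * (P.card : ℝ) ^ 2 + I.card * B ^ 2 := by
    intro i hi
    have h2 : ∀ j ∈ I, wt P (φ i - φ j) ^ 2 ≤
        (if φ i = φ j then (P.card : ℝ) ^ 2 else 0) + B ^ 2 := by
      intro j hj
      split_ifs with h3
      · have := pow_le_pow_left₀ (wt_nonneg P (φ i - φ j)) (wt_le P (φ i - φ j)) 2
        have := sq_nonneg B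
        linarith
      · have := pow_le_pow_left₀ (wt_nonneg P (φ i - φ j)) (h i hi j hj h3) 2
        linarith
    refine (Finset.sum_le_sum h2).trans ?_
    rw [Finset.sum_add_distrib, Finset.sum_const, nsmul_eq_mul]
    have h4 : ∑ j ∈ I, (if φ i = φ j then (P.card : ℝ) ^ 2 else 0) =
        ((I.filter fun j => φ i = φ j).card : ℝ) * (P.card : ℝ) ^ 2 := by
      rw [← Finset.sum_filter, Finset.sum_const, nsmul_eq_mul]
    rw [h4]
    have h5 := hT i hi (I.filter fun j => φ i = φ j) (Finset.filter_subset _ _)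
      (fun j hj => (Finset.mem_filter.1 hj).2)
    have := mul_le_mul_of_nonneg_right h5 (sq_nonneg (P.card : ℝ))
    linarith
  refine (Finset.sum_le_sum h1).trans ?_
  rw [Finset.sum_const, nsmul_eq_mul]

/-- The energy bound in terms of a set of primes. -/
theorem energy_le_of_primes (A : Finset ℕ) (hsq : ∀ a ∈ A, IsSquare a) (P : Finset ℕ)
    (hP : ∀ p ∈ P, p.Prime ∧ p ≠ 2) (Y : ℝ) (hY0 : 0 ≤ Y) (hY : ∀ p ∈ P, (p : ℝ) ≤ Y)
    (hPc : 0 < P.card) (hA : 4 ≤ A.card)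
    (hW : ∀ a ∈ A, ∀ b ∈ A, ∀ c ∈ A, ∀ d ∈ A, a + b ≠ c + d →
      wt P (((a + b : ℕ) : ℤ) - ((c + d : ℕ) : ℤ)) ≤ P.card / √(A.card)) :
    (Finset.addEnergy A A : ℝ) ≤ (A.card : ℝ) ^ 2 + 32 * Y * (A.card : ℝ) ^ 2 := by
  classical
  set M : ℝ := (A.card : ℝ) with hM
  set K : ℝ := (P.card : ℝ) with hK
  have hM4 : 4 ≤ M := by rw [hM]; exact_mod_cast hA
  have hK0 : 0 < K := by rw [hK]; exact_mod_cast hPc
  have hMpos : 0 < M := by linarith
  have hs2 : 2 ≤ √M := by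
    rw [show (2 : ℝ) = √(2 ^ 2) by rw [Real.sqrt_sq (by norm_num)]]
    exact Real.sqrt_le_sqrt (by linarith)
  have hsq2 : √M ^ 2 = M := Real.sq_sqrt hMpos.le
  have hdiff : ∀ a ∈ A, ∀ b ∈ A, (a : ℤ) ≠ (b : ℤ) → wt P ((a : ℤ) - (b : ℤ)) ≤ K / √M := by
    intro a ha b hb hab
    have h1 := hW a ha a ha b hb a ha (fun h => hab (by exact_mod_cast Nat.add_right_cancel h))
    have h2 : (((a + a : ℕ) : ℤ) - ((b + a : ℕ) : ℤ)) = (a : ℤ) - (b : ℤ) := by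
      push_cast
      ring
    rwa [h2] at h1
  -- the two sums of weights
  have hI : ∑ i ∈ A ×ˢ A, ∑ j ∈ A ×ˢ A,
      wt P (((i.1 + i.2 : ℕ) : ℤ) - ((j.1 + j.2 : ℕ) : ℤ)) ^ 2 ≤ 2 * M ^ 3 * K ^ 2 := by
    have h1 := sum_wt_sq_le P (A ×ˢ A) (fun i : ℕ × ℕ => ((i.1 + i.2 : ℕ) : ℤ)) (K / √M) M ?_ ?_
    · refine h1.trans (le_of_eq ?_)
      rw [Finset.card_product]
      push_cast
      rw [← hM, ← hK, div_pow, hsq2]
      field_simp
      ring
    · intro i hi j hj hij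
      rw [Finset.mem_product] at hi hj
      exact hW _ hi.1 _ hi.2 _ hj.1 _ hj.2 (fun h => hij (by exact_mod_cast h))
    · intro i hi S hS hSe
      have h2 : S.card ≤ A.card := by
        refine Finset.card_le_card_of_injOn (fun x => x.1) ?_ ?_
        · intro x hx
          exact (Finset.mem_product.1 (hS hx)).1
        · intro x hx y hy hxy
          have e1 : i.1 + i.2 = x.1 + x.2 := by exact_mod_cast hSe x hx
          have e2 : i.1 + i.2 = y.1 + y.2 := by exact_mod_cast hSe y hy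
          have e3 : x.1 = y.1 := hxy
          ext
          · exact e3
          · omega
      rw [hM]
      exact_mod_cast h2
  have hJ : ∑ i ∈ A, ∑ j ∈ A, wt P ((i : ℤ) - (j : ℤ)) ^ 2 ≤ 2 * M * K ^ 2 := by
    have h1 := sum_wt_sq_le P A (fun i : ℕ => (i : ℤ)) (K / √M) 1 hdiff ?_
    · refine h1.trans (le_of_eq ?_)
      rw [← hM, ← hK, div_pow, hsq2]
      field_simp
      ring
    · intro i hi S hS hSe
      have h2 : S.card ≤ 1 := by
        rw [Finset.card_le_one]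
        intro x hx y hy
        have e1 : i = x := by exact_mod_cast hSe x hx
        have e2 : i = y := by exact_mod_cast hSe y hy
        exact e1.symm.trans e2
      exact_mod_cast h2
  have hmain := csum_sq_le P Y hP hY hY0 (A ×ˢ A) A (fun i : ℕ × ℕ => ((i.1 + i.2 : ℕ) : ℤ))
    (fun i : ℕ => (i : ℤ))
  have hmain2 : ∑ i ∈ A ×ˢ A, ∑ j ∈ A, csum P (((i.1 + i.2 : ℕ) : ℤ) - (j : ℤ)) ^ 2 ≤
      Y * (2 * M ^ 2 * K ^ 2) := by
    refine hmain.trans (mul_le_mul_of_nonneg_left ?_ hY0)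
    have h1 : √(2 * M ^ 3 * K ^ 2) * √(2 * M * K ^ 2) = 2 * M ^ 2 * K ^ 2 := by
      rw [← Real.sqrt_mul (by positivity)]
      rw [show 2 * M ^ 3 * K ^ 2 * (2 * M * K ^ 2) = (2 * M ^ 2 * K ^ 2) ^ 2 by ring]
      exact Real.sqrt_sq (by positivity)
    rw [← h1]
    exact mul_le_mul (Real.sqrt_le_sqrt hI) (Real.sqrt_le_sqrt hJ) (by positivity) (by positivity)
  -- splitting the energy
  set Q : Finset ((ℕ × ℕ) × ℕ × ℕ) :=
    {x ∈ ((A ×ˢ A) ×ˢ A ×ˢ A) | x.1.1 + x.2.1 = x.1.2 + x.2.2} with hQ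
  have hE : Finset.addEnergy A A = Q.card := rfl
  set S1 : Finset ((ℕ × ℕ) × ℕ × ℕ) := Q.filter fun x => wt P (x.2.2 : ℤ) ≤ 3 / 4 * K with hS1
  set S2 : Finset ((ℕ × ℕ) × ℕ × ℕ) := Q.filter fun x => ¬ wt P (x.2.2 : ℤ) ≤ 3 / 4 * K with hS2
  have hcard : Q.card = S1.card + S2.card := by
    rw [hS1, hS2, Finset.card_filter_add_card_filter_not]
  have hmemQ : ∀ x ∈ Q, (x.1.1 ∈ A ∧ x.1.2 ∈ A ∧ x.2.1 ∈ A ∧ x.2.2 ∈ A) ∧
      x.1.1 + x.2.1 = x.1.2 + x.2.2 := by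
    intro x hx
    rw [hQ, Finset.mem_filter, Finset.mem_product, Finset.mem_product, Finset.mem_product] at hx
    exact ⟨⟨hx.1.1.1, hx.1.1.2, hx.1.2.1, hx.1.2.2⟩, hx.2⟩
  -- first part
  have hpart1 : (S1.card : ℝ) * (K / 4) ^ 2 ≤ Y * (2 * M ^ 2 * K ^ 2) := by
    have h1 : (S1.card : ℝ) * (K / 4) ^ 2 ≤
        ∑ x ∈ S1, csum P (((x.1.1 + x.2.1 : ℕ) : ℤ) - (x.1.2 : ℤ)) ^ 2 := by
      rw [← nsmul_eq_mul]
      refine Finset.card_nsmul_le_sum _ _ _ ?_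
      intro x hx
      obtain ⟨hxQ, hxw⟩ := Finset.mem_filter.1 hx
      obtain ⟨⟨_, _, _, hx4⟩, hxe⟩ := hmemQ x hxQ
      have e1 : ((x.1.1 + x.2.1 : ℕ) : ℤ) - (x.1.2 : ℤ) = (x.2.2 : ℤ) := by
        rw [hxe]
        push_cast
        ring
      rw [e1, csum_square P (fun p hp => (hP p hp).1) _ (hsq _ hx4)]
      refine pow_le_pow_left₀ (by positivity) ?_ 2
      rw [← hK]
      linarith
    refine h1.trans (le_trans ?_ hmain2)
    have h2 : ∑ x ∈ S1, csum P (((x.1.1 + x.2.1 : ℕ) : ℤ) - (x.1.2 : ℤ)) ^ 2 =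
        ∑ y ∈ S1.image (fun x => (((x.1.1, x.2.1), x.1.2) : (ℕ × ℕ) × ℕ)),
          csum P (((y.1.1 + y.1.2 : ℕ) : ℤ) - (y.2 : ℤ)) ^ 2 := by
      rw [Finset.sum_image]
      intro x hx y hy hxy
      have hx' := (hmemQ x (Finset.mem_filter.1 hx).1).2
      have hy' := (hmemQ y (Finset.mem_filter.1 hy).1).2
      simp only [Prod.mk.injEq] at hxy
      obtain ⟨⟨e1, e2⟩, e3⟩ := hxy
      ext
      · exact e1
      · exact e3
      · exact e2
      · omega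
    rw [h2]
    have h3 : ∑ i ∈ A ×ˢ A, ∑ j ∈ A, csum P (((i.1 + i.2 : ℕ) : ℤ) - (j : ℤ)) ^ 2 =
        ∑ y ∈ (A ×ˢ A) ×ˢ A, csum P (((y.1.1 + y.1.2 : ℕ) : ℤ) - (y.2 : ℤ)) ^ 2 :=
      (Finset.sum_product (A ×ˢ A) A
        (fun y : (ℕ × ℕ) × ℕ => csum P (((y.1.1 + y.1.2 : ℕ) : ℤ) - (y.2 : ℤ)) ^ 2)).symm
    rw [h3]
    refine Finset.sum_le_sum_of_subset_of_nonneg ?_ fun y _ _ => sq_nonneg _
    intro y hy
    obtain ⟨x, hx, rfl⟩ := Finset.mem_image.1 hy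
    obtain ⟨⟨h4, h5, h6, _⟩, _⟩ := hmemQ x (Finset.mem_filter.1 hx).1
    rw [Finset.mem_product, Finset.mem_product]
    exact ⟨⟨h4, h6⟩, h5⟩
  have hpart1' : (S1.card : ℝ) ≤ 32 * Y * M ^ 2 := by
    have h1 : (S1.card : ℝ) * (K / 4) ^ 2 ≤ (32 * Y * M ^ 2) * (K / 4) ^ 2 := by
      refine hpart1.trans (le_of_eq ?_)
      ring
    exact le_of_mul_le_mul_right h1 (by positivity)
  -- second part
  have hpart2 : (S2.card : ℝ) ≤ M ^ 2 := by
    have huniq : ∀ d ∈ A, ∀ d' ∈ A, 3 / 4 * K < wt P (d : ℤ) → 3 / 4 * K < wt P (d' : ℤ) →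
        d = d' := by
      intro d hd d' hd' h1 h2
      by_contra hne
      have h3 := hdiff d hd d' hd' (by exact_mod_cast hne)
      have h4 : wt P (d : ℤ) + wt P (d' : ℤ) ≤ K + wt P ((d : ℤ) - (d' : ℤ)) := by
        unfold wt
        rw [← Finset.sum_add_distrib]
        have h5 : K = ∑ p ∈ P, (1 : ℝ) := by simp [hK]
        rw [h5, ← Finset.sum_add_distrib]
        refine Finset.sum_le_sum fun p _ => ?_
        by_cases h6 : (p : ℤ) ∣ (d : ℤ)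
        · by_cases h7 : (p : ℤ) ∣ (d' : ℤ)
          · rw [if_pos h6, if_pos h7, if_pos (dvd_sub h6 h7)]
          · rw [if_pos h6, if_neg h7]
            split_ifs <;> norm_num
        · rw [if_neg h6]
          split_ifs <;> norm_num
      have h8 : K / √M ≤ K / 2 := div_le_div_of_nonneg_left hK0.le (by norm_num) hs2
      linarith
    have h1 : S2.card ≤ (A ×ˢ A).card := by
      refine Finset.card_le_card_of_injOn (fun x => (x.1.1, x.2.1)) ?_ ?_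
      · intro x hx
        obtain ⟨⟨h4, _, h6, _⟩, _⟩ := hmemQ x (Finset.mem_filter.1 hx).1
        exact Finset.mem_coe.2 (Finset.mem_product.2 ⟨h4, h6⟩)
      · intro x hx y hy hxy
        obtain ⟨hxQ, hxw⟩ := Finset.mem_filter.1 (Finset.mem_coe.1 hx)
        obtain ⟨hyQ, hyw⟩ := Finset.mem_filter.1 (Finset.mem_coe.1 hy)
        obtain ⟨⟨_, _, _, hx4⟩, hxe⟩ := hmemQ x hxQ
        obtain ⟨⟨_, _, _, hy4⟩, hye⟩ := hmemQ y hyQ
        have e4 := huniq _ hx4 _ hy4 (not_le.1 hxw) (not_le.1 hyw)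
        simp only [Prod.mk.injEq] at hxy
        obtain ⟨e1, e2⟩ := hxy
        ext
        · exact e1
        · omega
        · exact e2
        · exact e4
    rw [Finset.card_product] at h1
    rw [hM, sq]
    exact_mod_cast h1
  rw [hE, hcard]
  push_cast
  linarith

end Pool.Agent.MP_af3031_nt
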