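import Mathlib

/-!
# A set of primes, and absorbing constants
-/

set_option autoImplicit false

namespace Pool.Agent.MP_af3031_nt

open Finset

/-- The primes between the square root of `Y` and `Y`. -/
def pset (Y : ℕ) : Finset ℕ := (Finset.range (Y + 1)).filter fun p => p.Prime ∧ Y < p ^ 2

theorem mem_pset {Y p : ℕ} : p ∈ pset Y ↔ p ≤ Y ∧ p.Prime ∧ Y < p ^ 2 := by
  unfold pset
  rw [Finset.mem_filter, Finset.mem_range, Nat.lt_succ_iff]

theorem pset_card (Y : ℕ) (hY : 2560000 ≤ Y) :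
    (Y : ℝ) / (4 * Real.log Y) ≤ (pset Y).card := by
  have hYR : (2560000 : ℝ) ≤ (Y : ℝ) := by exact_mod_cast hY
  have hYpos : (0 : ℝ) < (Y : ℝ) := by linarith
  set t : ℝ := √(√(Y : ℝ)) with ht
  have ht2 : t ^ 2 = √(Y : ℝ) := Real.sq_sqrt (Real.sqrt_nonneg _)
  have ht4 : t ^ 4 = (Y : ℝ) := by
    rw [show t ^ 4 = (t ^ 2) ^ 2 by ring, ht2, Real.sq_sqrt hYpos.le]
  have ht0 : 0 ≤ t := Real.sqrt_nonneg _
  have ht40 : 40 ≤ t := by
    by_contra h
    have h1 : t < 40 := not_le.1 h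
    have h2 : t ^ 4 < 40 ^ 4 := pow_lt_pow_left₀ h1 ht0 (by norm_num)
    rw [ht4] at h2
    norm_num at h2
    linarith
  have htpos : 0 < t := by linarith
  have hlogY : Real.log (Y : ℝ) ≤ 4 * t := by
    rw [← ht4, Real.log_pow]
    have := Real.log_le_sub_one_of_pos htpos
    push_cast
    linarith
  have hlogpos : 0 < Real.log (Y : ℝ) := Real.log_pos (by linarith)
  have hlog1 : Real.log ((Y : ℝ) + 1) ≤ 1 + 4 * t := by
    have h1 : Real.log ((Y : ℝ) + 1) ≤ Real.log (2 * (Y : ℝ)) :=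
      Real.log_le_log (by linarith) (by linarith)
    rw [Real.log_mul (by norm_num) hYpos.ne'] at h1
    have h2 := Real.log_two_lt_d9
    linarith
  have hpi := Chebyshev.pi_ge Y
  rw [div_le_iff₀ hlogpos] at hpi
  have hcount : (Nat.primeCounting Y : ℝ) ≤ (pset Y).card + √(Y : ℝ) := by
    have h1 : Nat.primeCounting Y = ((Finset.range (Y + 1)).filter Nat.Prime).card := by
      unfold Nat.primeCounting Nat.primeCounting'
      rw [Nat.count_eq_card_filter_range]
    have h2 : (Finset.range (Y + 1)).filter Nat.Prime ⊆ pset Y ∪ Finset.Icc 1 (Nat.sqrt Y) := by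
      intro p hp
      rw [Finset.mem_filter, Finset.mem_range, Nat.lt_succ_iff] at hp
      rw [Finset.mem_union]
      by_cases h3 : Y < p ^ 2
      · exact Or.inl (mem_pset.2 ⟨hp.1, hp.2, h3⟩)
      · right
        rw [Finset.mem_Icc]
        exact ⟨hp.2.one_lt.le, Nat.le_sqrt'.2 (not_lt.1 h3)⟩
    have h4 : Nat.primeCounting Y ≤ (pset Y).card + Nat.sqrt Y := by
      rw [h1]
      refine (Finset.card_le_card h2).trans ((Finset.card_union_le _ _).trans ?_)
      rw [Nat.card_Icc]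
      omega
    have h5 : (Nat.sqrt Y : ℝ) ≤ √(Y : ℝ) := Real.nat_sqrt_le_real_sqrt
    have h6 : (Nat.primeCounting Y : ℝ) ≤ (pset Y).card + (Nat.sqrt Y : ℝ) := by exact_mod_cast h4
    linarith
  rw [div_le_iff₀ (by positivity)]
  have h7 : (Y : ℝ) * Real.log 2 - Real.log ((Y : ℝ) + 1) ≤
      ((pset Y).card + √(Y : ℝ)) * Real.log Y :=
    hpi.trans (mul_le_mul_of_nonneg_right hcount hlogpos.le)
  have h8 : √(Y : ℝ) * Real.log Y ≤ (Y : ℝ) / 10 := by
    rw [← ht2]
    calc t ^ 2 * Real.log Y ≤ t ^ 2 * (4 * t) := by gcongr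
      _ ≤ t ^ 2 * (t ^ 2 / 10) := by
          refine mul_le_mul_of_nonneg_left ?_ (by positivity)
          nlinarith
      _ = (Y : ℝ) / 10 := by rw [← ht4]; ring
  have h9 : 1 + 4 * t ≤ (Y : ℝ) / 10 := by
    have h10 : 1600 ≤ t ^ 2 := by nlinarith
    have h11 : 1600 * t ^ 2 ≤ t ^ 2 * t ^ 2 := mul_le_mul_of_nonneg_right h10 (sq_nonneg t)
    have h15 : 1 + 4 * t ≤ 160 * t ^ 2 := by nlinarith
    rw [← ht4, show t ^ 4 = t ^ 2 * t ^ 2 by ring]
    linarith
  have h12 := Real.log_two_gt_d9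
  have h13 : (Y : ℝ) * 0.69 ≤ (Y : ℝ) * Real.log 2 :=
    mul_le_mul_of_nonneg_left (by linarith) hYpos.le
  have h14 : ((pset Y).card + √(Y : ℝ)) * Real.log Y =
      (pset Y).card * Real.log Y + √(Y : ℝ) * Real.log Y := by ring
  nlinarith

/-- Constants can be absorbed in the exponent. -/
theorem absorb (ε C : ℝ) (hε : 0 < ε) : ∃ c : ℝ, 0 < c ∧ ∀ M T : ℝ, 2 ≤ M → 3 / 2 * M ≤ T →
    M ^ (1 + ε) ≤ C * T → M ^ (1 + c) ≤ T := by
  set C' : ℝ := max C 1 with hC'
  have hC1 : 1 ≤ C' := le_max_right _ _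
  have hC0 : 0 < C' := by linarith
  set K : ℝ := C' ^ (2 / ε) with hK
  have hK1 : 1 ≤ K := Real.one_le_rpow hC1 (by positivity)
  have hlogK : 0 ≤ Real.log K := Real.log_nonneg hK1
  have hl : 0 < Real.log (3 / 2) := Real.log_pos (by norm_num)
  refine ⟨min (ε / 2) (Real.log (3 / 2) / (Real.log K + 1)), lt_min (by positivity)
    (by positivity), ?_⟩
  intro M T hM hT hMT
  have hM0 : 0 < M := by linarith
  have hT0 : 0 < T := by linarith
  set c : ℝ := min (ε / 2) (Real.log (3 / 2) / (Real.log K + 1)) with hc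
  have hc0 : 0 < c := lt_min (by positivity) (by positivity)
  by_cases h : K ≤ M
  · have h1 : C' ≤ M ^ (ε / 2) := by
      have h2 : K ^ (ε / 2) ≤ M ^ (ε / 2) := Real.rpow_le_rpow (by linarith) h (by positivity)
      have h3 : K ^ (ε / 2) = C' := by
        rw [hK, ← Real.rpow_mul hC0.le]
        have : 2 / ε * (ε / 2) = 1 := by field_simp
        rw [this, Real.rpow_one]
      rwa [h3] at h2
    have h4 : M ^ (1 + ε) = M ^ (1 + ε / 2) * M ^ (ε / 2) := by
      rw [← Real.rpow_add hM0]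
      congr 1
      ring
    have h5 : M ^ (1 + c) ≤ M ^ (1 + ε / 2) := by
      refine Real.rpow_le_rpow_of_exponent_le (by linarith) ?_
      have := min_le_left (ε / 2) (Real.log (3 / 2) / (Real.log K + 1))
      linarith
    have h6 : M ^ (1 + ε / 2) * C' ≤ T * C' := by
      calc M ^ (1 + ε / 2) * C' ≤ M ^ (1 + ε / 2) * M ^ (ε / 2) :=
            mul_le_mul_of_nonneg_left h1 (by positivity)
        _ ≤ C * T := by rw [← h4]; exact hMT
        _ ≤ C' * T := mul_le_mul_of_nonneg_right (le_max_left _ _) hT0.le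
        _ = T * C' := by ring
    exact h5.trans (le_of_mul_le_mul_right h6 hC0)
  · have h1 : M < K := not_le.1 h
    have h2 : M ^ c ≤ 3 / 2 := by
      rw [Real.rpow_def_of_pos hM0, ← Real.exp_log (show (0 : ℝ) < 3 / 2 by norm_num)]
      refine Real.exp_le_exp.2 ?_
      have h3 : Real.log M ≤ Real.log K + 1 := by
        have := Real.log_le_log hM0 h1.le
        linarith
      have h4 : c ≤ Real.log (3 / 2) / (Real.log K + 1) := min_le_right _ _
      have h5 : 0 ≤ Real.log M := Real.log_nonneg (by linarith)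
      calc Real.log M * c ≤ (Real.log K + 1) * (Real.log (3 / 2) / (Real.log K + 1)) :=
            mul_le_mul h3 h4 hc0.le (by linarith)
        _ = Real.log (3 / 2) := by field_simp
    rw [Real.rpow_add hM0, Real.rpow_one]
    calc M * M ^ c ≤ M * (3 / 2) := mul_le_mul_of_nonneg_left h2 hM0.le
      _ ≤ T := by linarith

end Pool.Agent.MP_af3031_nt
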