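import Mathlib
import Pool.Agent.Lib.MP_af3031_nt.Abstract
import Pool.Agent.Lib.MP_af3031_nt.Primes

/-!
# The energy bound for sets of squares
-/

set_option autoImplicit false

namespace Pool.Agent.MP_af3031_nt

open Finset
open scoped Pointwise

/-- The trivial bound for the additive energy. -/
theorem energy_trivial (A : Finset ℕ) : Finset.addEnergy A A ≤ A.card ^ 3 := by
  classical
  unfold Finset.addEnergy
  have h1 : ({x ∈ ((A ×ˢ A) ×ˢ A ×ˢ A) | x.1.1 + x.2.1 = x.1.2 + x.2.2}).card ≤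
      ((A ×ˢ A) ×ˢ A).card := by
    refine Finset.card_le_card_of_injOn (fun x => ((x.1.1, x.2.1), x.1.2)) ?_ ?_
    · intro x hx
      have hx := (Finset.mem_filter.1 (Finset.mem_coe.1 hx)).1
      rw [Finset.mem_product, Finset.mem_product, Finset.mem_product] at hx
      refine Finset.mem_coe.2 ?_
      rw [Finset.mem_product, Finset.mem_product]
      exact ⟨⟨hx.1.1, hx.2.1⟩, hx.1.2⟩
    · intro x hx y hy hxy
      have hx' := (Finset.mem_filter.1 (Finset.mem_coe.1 hx)).2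
      have hy' := (Finset.mem_filter.1 (Finset.mem_coe.1 hy)).2
      simp only [Prod.mk.injEq] at hxy
      obtain ⟨⟨e1, e2⟩, e3⟩ := hxy
      ext
      · exact e1
      · exact e3
      · exact e2
      · omega
  refine h1.trans (le_of_eq ?_)
  rw [Finset.card_product, Finset.card_product]
  ring

/-- The weights are small on the differences. -/
theorem wt_small (P : Finset ℕ) (Y M : ℕ) (hP : ∀ p ∈ P, p.Prime ∧ p ≤ M ∧ Y < p ^ 2)
    (hY : 2 ≤ Y) (L : ℝ) (n : ℕ) (hn : 0 < n)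
    (hL : ∑ p ∈ n.primeFactors.filter (fun p => p ≤ M), Real.log p ≤ L) :
    wt P (n : ℤ) ≤ 2 * L / Real.log Y := by
  classical
  have hlogY : 0 < Real.log (Y : ℝ) := Real.log_pos (by exact_mod_cast hY)
  rw [le_div_iff₀ hlogY]
  have h1 : wt P (n : ℤ) * Real.log Y =
      ∑ p ∈ P.filter (fun p : ℕ => (p : ℤ) ∣ (n : ℤ)), Real.log Y := by
    unfold wt
    rw [Finset.sum_mul, Finset.sum_filter]
    refine Finset.sum_congr rfl fun p _ => ?_
    split_ifs
    · rw [one_mul]
    · rw [zero_mul]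
  rw [h1]
  have h2 : ∑ p ∈ P.filter (fun p : ℕ => (p : ℤ) ∣ (n : ℤ)), Real.log Y ≤
      ∑ p ∈ P.filter (fun p : ℕ => (p : ℤ) ∣ (n : ℤ)), 2 * Real.log p := by
    refine Finset.sum_le_sum fun p hp => ?_
    have hp' := hP p (Finset.mem_filter.1 hp).1
    have h3 : (Y : ℝ) ≤ (p : ℝ) ^ 2 := by exact_mod_cast hp'.2.2.le
    have h4 : Real.log (Y : ℝ) ≤ Real.log ((p : ℝ) ^ 2) :=
      Real.log_le_log (by exact_mod_cast (by omega : 0 < Y)) h3
    rw [Real.log_pow] at h4
    exact_mod_cast h4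
  refine h2.trans ?_
  rw [← Finset.mul_sum]
  refine mul_le_mul_of_nonneg_left (le_trans ?_ hL) (by norm_num)
  refine Finset.sum_le_sum_of_subset_of_nonneg ?_ ?_
  · intro p hp
    obtain ⟨h5, h6⟩ := Finset.mem_filter.1 hp
    have hp' := hP p h5
    rw [Finset.mem_filter, Nat.mem_primeFactors]
    exact ⟨⟨hp'.1, by exact_mod_cast h6, hn.ne'⟩, hp'.2.1⟩
  · intro p hp _
    have h7 := Nat.prime_of_mem_primeFactors (Finset.mem_filter.1 hp).1
    exact Real.log_nonneg (by exact_mod_cast h7.one_lt.le)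

theorem wt_neg (P : Finset ℕ) (n : ℤ) : wt P (-n) = wt P n := by
  unfold wt
  refine Finset.sum_congr rfl fun p _ => ?_
  simp only [dvd_neg]

/-- The energy bound. -/
theorem energy_bound (A : Finset ℕ) (hsq : ∀ a ∈ A, IsSquare a) (hA : 2 ≤ A.card) (L : ℝ)
    (hL : Real.log A.card ≤ L)
    (hdiv : ∀ s ∈ A + A, ∀ t ∈ A + A, s < t →
      ∑ p ∈ (t - s).primeFactors.filter (fun p => p ≤ A.card), Real.log p ≤ L) :
    (Finset.addEnergy A A : ℝ) ≤ 1000000 * L * ((A.card : ℝ) ^ 2 * √(A.card)) := by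
  set M : ℝ := (A.card : ℝ) with hM
  have hM2 : 2 ≤ M := by rw [hM]; exact_mod_cast hA
  have hM0 : 0 < M := by linarith
  have hs : √M ^ 2 = M := Real.sq_sqrt hM0.le
  have hs0 : 0 < √M := Real.sqrt_pos.2 hM0
  have hL2 : 0.69 ≤ L := by
    have h1 : Real.log 2 ≤ Real.log M := Real.log_le_log (by norm_num) hM2
    have := Real.log_two_gt_d9
    linarith
  have htriv : (Finset.addEnergy A A : ℝ) ≤ M ^ 3 := by
    rw [hM]
    exact_mod_cast energy_trivial A
  have hM3 : M ^ 3 = (M ^ 2 * √M) * √M := by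
    calc M ^ 3 = M ^ 2 * M := by ring
      _ = M ^ 2 * √M ^ 2 := by rw [hs]
      _ = _ := by ring
  by_cases h1 : √M < 320000
  · refine htriv.trans ?_
    rw [hM3]
    calc (M ^ 2 * √M) * √M ≤ (M ^ 2 * √M) * (1000000 * L) := by
          refine mul_le_mul_of_nonneg_left ?_ (by positivity)
          linarith
      _ = _ := by ring
  have h1' : 320000 ≤ √M := not_lt.1 h1
  set Y : ℕ := ⌈8 * L * √M⌉₊ with hYdef
  have hYge : 8 * L * √M ≤ (Y : ℝ) := Nat.le_ceil _
  by_cases h2 : A.card < Y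
  · have h3 : M < 8 * L * √M := by
      rw [hM]
      exact Nat.lt_ceil.1 h2
    have h4 : √M < 8 * L := by
      have h5 : √M * √M < (8 * L) * √M := by
        rw [← sq, hs]
        exact h3
      exact lt_of_mul_lt_mul_right h5 hs0.le
    refine htriv.trans ?_
    rw [hM3]
    calc (M ^ 2 * √M) * √M ≤ (M ^ 2 * √M) * (1000000 * L) := by
          refine mul_le_mul_of_nonneg_left ?_ (by positivity)
          linarith
      _ = _ := by ring
  have h2' : Y ≤ A.card := not_lt.1 h2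
  have hMbig : (320000 : ℝ) ^ 2 ≤ M := by
    rw [← hs]
    exact pow_le_pow_left₀ (by norm_num) h1' 2
  have hL1 : 1 ≤ L := by
    have h3 : Real.log (Real.exp 1) ≤ Real.log M := by
      refine Real.log_le_log (Real.exp_pos 1) ?_
      have := Real.exp_one_lt_d9
      norm_num at hMbig
      linarith
    rw [Real.log_exp] at h3
    linarith
  have hYbig : 2560000 ≤ Y := by
    have h3 : (2560000 : ℝ) ≤ (Y : ℝ) := by
      refine le_trans ?_ hYge
      calc (2560000 : ℝ) = 8 * 1 * 320000 := by norm_num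
        _ ≤ 8 * L * √M := by gcongr
    exact_mod_cast h3
  have hcard := pset_card Y hYbig
  have hYR : (2560000 : ℝ) ≤ (Y : ℝ) := by exact_mod_cast hYbig
  have hlogY : 0 < Real.log (Y : ℝ) := Real.log_pos (by linarith)
  have hcpos : 0 < (pset Y).card := by
    have h3 : (0 : ℝ) < (pset Y).card := lt_of_lt_of_le (by positivity) hcard
    exact_mod_cast h3
  have hsmall : 2 * L / Real.log Y ≤ (pset Y).card / √M := by
    rw [le_div_iff₀ hs0]
    refine le_trans ?_ hcard
    rw [div_mul_eq_mul_div, div_le_div_iff₀ hlogY (by positivity)]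
    have h3 : 8 * L * √M * Real.log Y ≤ (Y : ℝ) * Real.log Y :=
      mul_le_mul_of_nonneg_right hYge hlogY.le
    linarith
  have hPprop : ∀ p ∈ pset Y, p.Prime ∧ p ≤ A.card ∧ Y < p ^ 2 := by
    intro p hp
    obtain ⟨h3, h4, h5⟩ := mem_pset.1 hp
    exact ⟨h4, h3.trans h2', h5⟩
  have hW : ∀ a ∈ A, ∀ b ∈ A, ∀ c ∈ A, ∀ d ∈ A, a + b ≠ c + d →
      wt (pset Y) (((a + b : ℕ) : ℤ) - ((c + d : ℕ) : ℤ)) ≤ (pset Y).card / √(A.card) := by
    intro a ha b hb c hc d hd hne
    have hlt : ∀ s ∈ A + A, ∀ t ∈ A + A, s < t →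
        wt (pset Y) ((t : ℤ) - (s : ℤ)) ≤ (pset Y).card / √(A.card) := by
      intro s hs' t ht' hst
      have h3 := wt_small (pset Y) Y A.card hPprop (by omega) L (t - s) (by omega)
        (hdiv s hs' t ht' hst)
      have h4 : ((t - s : ℕ) : ℤ) = (t : ℤ) - (s : ℤ) := by
        rw [Nat.cast_sub hst.le]
      rw [h4] at h3
      exact h3.trans hsmall
    rcases lt_or_gt_of_ne hne with h3 | h3
    · have h4 := hlt (a + b) (Finset.add_mem_add ha hb) (c + d) (Finset.add_mem_add hc hd) h3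
      rw [← wt_neg, neg_sub]
      exact h4
    · exact hlt (c + d) (Finset.add_mem_add hc hd) (a + b) (Finset.add_mem_add ha hb) h3
  have hmain := energy_le_of_primes A hsq (pset Y) ?_ (Y : ℝ) (Nat.cast_nonneg Y) ?_ hcpos ?_ hW
  · have hYle : (Y : ℝ) ≤ 9 * L * √M := by
      have h3 : (Y : ℝ) < 8 * L * √M + 1 := Nat.ceil_lt_add_one (by positivity)
      have h4 : 1 * 1 ≤ L * √M := mul_le_mul hL1 (by linarith) (by norm_num) (by linarith)
      linarith
    rw [← hM] at hmain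
    have h5 : M ^ 2 ≤ L * (M ^ 2 * √M) := by
      have h4 : 1 * 1 ≤ L * √M := mul_le_mul hL1 (by linarith) (by norm_num) (by linarith)
      calc M ^ 2 = M ^ 2 * (1 * 1) := by ring
        _ ≤ M ^ 2 * (L * √M) := mul_le_mul_of_nonneg_left h4 (by positivity)
        _ = _ := by ring
    have h6 : 32 * (Y : ℝ) * M ^ 2 ≤ 288 * (L * (M ^ 2 * √M)) := by
      calc 32 * (Y : ℝ) * M ^ 2 ≤ 32 * (9 * L * √M) * M ^ 2 := by gcongr
        _ = _ := by ring
    have h7 : 0 ≤ L * (M ^ 2 * √M) := by positivity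
    calc (Finset.addEnergy A A : ℝ) ≤ M ^ 2 + 32 * (Y : ℝ) * M ^ 2 := hmain
      _ ≤ 1000000 * (L * (M ^ 2 * √M)) := by linarith
      _ = _ := by ring
  · intro p hp
    obtain ⟨h3, h4, h5⟩ := mem_pset.1 hp
    refine ⟨h4, ?_⟩
    rintro rfl
    omega
  · intro p hp
    exact_mod_cast (mem_pset.1 hp).1
  · have h3 : (4 : ℝ) ≤ M := by
      norm_num at hMbig
      linarith
    rw [hM] at h3
    exact_mod_cast h3

end Pool.Agent.MP_af3031_nt
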