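import Mathlib
import Pool.Agent.Lib.MP_af3031_nt.Bound

/-!
# Growth of sumsets of squares
-/

set_option autoImplicit false

namespace Pool.Agent.MP_af3031_nt

open Finset
open scoped Pointwise

/-- From the energy to the sumset. -/
theorem sumset_bound (A : Finset ℕ) (hsq : ∀ a ∈ A, IsSquare a) (hA : 2 ≤ A.card) (L : ℝ)
    (hL : Real.log A.card ≤ L)
    (hdiv : ∀ s ∈ A + A, ∀ t ∈ A + A, s < t →
      ∑ p ∈ (t - s).primeFactors.filter (fun p => p ≤ A.card), Real.log p ≤ L) :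
    (A.card : ℝ) ^ (3 / 2 : ℝ) ≤ 1000000 * L * ((A + A).card : ℝ) := by
  have hE := energy_bound A hsq hA L hL hdiv
  set M : ℝ := (A.card : ℝ) with hM
  have hM2 : 2 ≤ M := by rw [hM]; exact_mod_cast hA
  have hM0 : 0 < M := by linarith
  have hs : √M ^ 2 = M := Real.sq_sqrt hM0.le
  have hs0 : 0 < √M := Real.sqrt_pos.2 hM0
  have h1 : M ^ 2 * M ^ 2 ≤ ((A + A).card : ℝ) * (Finset.addEnergy A A : ℝ) := by
    rw [hM]
    exact_mod_cast Finset.le_card_add_mul_addEnergy A A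
  have h2 : M ^ 2 * M ^ 2 ≤ ((A + A).card : ℝ) * (1000000 * L * (M ^ 2 * √M)) :=
    h1.trans (mul_le_mul_of_nonneg_left hE (Nat.cast_nonneg _))
  have h3 : M ^ (3 / 2 : ℝ) = M * √M := by
    rw [Real.sqrt_eq_rpow, show (3 / 2 : ℝ) = 1 + 1 / 2 by norm_num, Real.rpow_add hM0,
      Real.rpow_one]
  have h4 : M ^ 2 * M ^ 2 = (M * √M) * (M ^ 2 * √M) := by
    calc M ^ 2 * M ^ 2 = M ^ 2 * M * M := by ring
      _ = M ^ 2 * M * √M ^ 2 := by rw [hs]
      _ = _ := by ring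
  rw [h3]
  have h5 : (M * √M) * (M ^ 2 * √M) ≤
      (1000000 * L * ((A + A).card : ℝ)) * (M ^ 2 * √M) := by
    rw [← h4]
    refine h2.trans (le_of_eq ?_)
    ring
  exact le_of_mul_le_mul_right h5 (by positivity)

/-- The logarithm bounds the prime factors. -/
theorem sum_log_primeFactors_le (n M : ℕ) (hn : 0 < n) :
    ∑ p ∈ n.primeFactors.filter (fun p => p ≤ M), Real.log p ≤ Real.log n := by
  have h1 : ∑ p ∈ n.primeFactors.filter (fun p => p ≤ M), Real.log p ≤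
      ∑ p ∈ n.primeFactors, Real.log p := by
    refine Finset.sum_le_sum_of_subset_of_nonneg (Finset.filter_subset _ _) ?_
    intro p hp _
    exact Real.log_nonneg (by exact_mod_cast (Nat.prime_of_mem_primeFactors hp).one_lt.le)
  refine h1.trans ?_
  rw [← Real.log_prod (fun p hp => by
    have := (Nat.prime_of_mem_primeFactors hp).pos
    positivity)]
  refine Real.log_le_log ?_ ?_
  · refine Finset.prod_pos fun p hp => ?_
    exact_mod_cast (Nat.prime_of_mem_primeFactors hp).pos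
  · have h2 : ∏ p ∈ n.primeFactors, p ≤ n := Nat.le_of_dvd hn (Nat.prod_primeFactors_dvd n)
    have h3 : ((∏ p ∈ n.primeFactors, p : ℕ) : ℝ) ≤ (n : ℝ) := Nat.cast_le.2 h2
    rwa [Nat.cast_prod] at h3

/-- The bound for squares up to `N`. -/
theorem bounded_squares (N : ℕ) (hN : 2 ≤ N) (A : Finset ℕ) (hsq : ∀ a ∈ A, IsSquare a ∧ a ≤ N)
    (hA : 2 ≤ A.card) :
    (A.card : ℝ) ^ (3 / 2 : ℝ) ≤ 2000000 * Real.log N * ((A + A).card : ℝ) := by
  have hNR : (2 : ℝ) ≤ (N : ℝ) := by exact_mod_cast hN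
  have hlog2 : Real.log (2 * N) ≤ 2 * Real.log N := by
    rw [Real.log_mul (by norm_num) (by positivity)]
    have := Real.log_le_log (by norm_num) hNR
    linarith
  have hcard : A.card ≤ N + 1 := by
    have h1 : A ⊆ Finset.range (N + 1) := fun a ha =>
      Finset.mem_range.2 (Nat.lt_succ_of_le (hsq a ha).2)
    simpa using Finset.card_le_card h1
  have hL : Real.log A.card ≤ 2 * Real.log N := by
    refine le_trans (Real.log_le_log ?_ ?_) hlog2
    · exact_mod_cast (by omega : 0 < A.card)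
    · have h2 : A.card ≤ 2 * N := by omega
      exact_mod_cast h2
  have h3 := sumset_bound A (fun a ha => (hsq a ha).1) hA (2 * Real.log N) hL ?_
  · refine h3.trans (le_of_eq ?_)
    ring
  · intro s hs t ht hst
    refine (sum_log_primeFactors_le (t - s) A.card (by omega)).trans (le_trans ?_ hlog2)
    obtain ⟨a, ha, b, hb, hab⟩ := Finset.mem_add.1 ht
    have h4 : t - s ≤ 2 * N := by
      have h5 := (hsq a ha).2
      have h6 := (hsq b hb).2
      omega
    refine Real.log_le_log ?_ ?_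
    · exact_mod_cast (by omega : 0 < t - s)
    · exact_mod_cast h4

/-- The linear bound. -/
theorem linear_bound (A : Finset ℕ) (hA : 2 ≤ A.card) :
    3 / 2 * (A.card : ℝ) ≤ ((A + A).card : ℝ) := by
  have hne : A.Nonempty := Finset.card_pos.1 (by omega)
  have h1 : A.card + A.card - 1 ≤ (A + A).card := by
    exact cauchy_davenport_add_of_linearOrder_isCancelAdd hne hne
  have h3 : ((A.card + A.card - 1 : ℕ) : ℝ) ≤ ((A + A).card : ℝ) := by exact_mod_cast h1
  have h4 : ((A.card + A.card - 1 : ℕ) : ℝ) = (A.card : ℝ) + A.card - 1 := by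
    rw [Nat.cast_sub (by omega)]
    push_cast
    ring
  rw [h4] at h3
  have h5 : (2 : ℝ) ≤ (A.card : ℝ) := by exact_mod_cast hA
  linarith

/-- Power gain for sets of squares of polylogarithmic size. -/
theorem polylog (δ : ℝ) (hδ : 0 < δ) : ∃ c : ℝ, 0 < c ∧ ∀ N : ℕ, 2 ≤ N → ∀ A : Finset ℕ,
    (∀ a ∈ A, IsSquare a ∧ a ≤ N) → 2 ≤ A.card →
    (Real.log N) ^ (2 + δ) ≤ A.card →
    (A.card : ℝ) ^ (1 + c) ≤ ((A + A).card : ℝ) := by
  obtain ⟨c, hc, habs⟩ := absorb (δ / (2 * (2 + δ))) 2000000 (by positivity)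
  refine ⟨c, hc, fun N hN A hsq hA hlog => ?_⟩
  have h1 := bounded_squares N hN A hsq hA
  set M : ℝ := (A.card : ℝ) with hM
  have hM2 : 2 ≤ M := by rw [hM]; exact_mod_cast hA
  have hM0 : 0 < M := by linarith
  have hlogN : 0 ≤ Real.log N := Real.log_nonneg (by exact_mod_cast (by omega : 1 ≤ N))
  refine habs M _ hM2 (linear_bound A hA) ?_
  have h2 : Real.log N ≤ M ^ (1 / (2 + δ)) := by
    have h3 := Real.rpow_le_rpow (by positivity) hlog (show 0 ≤ 1 / (2 + δ) by positivity)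
    rw [← Real.rpow_mul hlogN] at h3
    have h4 : (2 + δ) * (1 / (2 + δ)) = 1 := by field_simp
    rwa [h4, Real.rpow_one] at h3
  have hr : 0 < M ^ (1 / (2 + δ)) := Real.rpow_pos_of_pos hM0 _
  have h5 : M ^ (3 / 2 : ℝ) = M ^ (1 + δ / (2 * (2 + δ))) * M ^ (1 / (2 + δ)) := by
    rw [← Real.rpow_add hM0]
    congr 1
    field_simp
    ring
  have h6 : M ^ (1 + δ / (2 * (2 + δ))) * M ^ (1 / (2 + δ)) ≤
      (2000000 * ((A + A).card : ℝ)) * M ^ (1 / (2 + δ)) := by
    rw [← h5]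
    refine h1.trans ?_
    calc 2000000 * Real.log N * ((A + A).card : ℝ)
        ≤ 2000000 * M ^ (1 / (2 + δ)) * ((A + A).card : ℝ) := by gcongr
      _ = _ := by ring
  exact le_of_mul_le_mul_right h6 hr

/-- The version without any bound for the size of the elements. -/
theorem height_free (δ : ℝ) (hδ : 0 < δ) : ∃ c : ℝ, 0 < c ∧ ∀ A : Finset ℕ,
    (∀ a ∈ A, IsSquare a) → 2 ≤ A.card →
    (∀ s ∈ A + A, ∀ t ∈ A + A, s < t →
      ∑ p ∈ (t - s).primeFactors.filter (fun p => p ≤ A.card), Real.log p ≤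
        (A.card : ℝ) ^ (1 / 2 - δ)) →
    (A.card : ℝ) ^ (1 + c) ≤ ((A + A).card : ℝ) := by
  set ε : ℝ := min δ (1 / 4) with hε
  have hε0 : 0 < ε := lt_min hδ (by norm_num)
  have hεδ : ε ≤ δ := min_le_left _ _
  have hε4 : ε ≤ 1 / 4 := min_le_right _ _
  obtain ⟨c, hc, habs⟩ := absorb ε 4000000 hε0
  refine ⟨c, hc, fun A hsq hA hdiv => ?_⟩
  have h0 : 2 ≤ (A.card : ℝ) := by exact_mod_cast hA
  have hlogM : Real.log A.card ≤ 4 * (A.card : ℝ) ^ (1 / 2 - ε) := by
    have h1 := Real.log_le_rpow_div (Nat.cast_nonneg A.card) (show (0 : ℝ) < 1 / 4 by norm_num)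
    have h2 : (A.card : ℝ) ^ (1 / 4 : ℝ) ≤ (A.card : ℝ) ^ (1 / 2 - ε) :=
      Real.rpow_le_rpow_of_exponent_le (by linarith) (by linarith)
    have h3 : (A.card : ℝ) ^ (1 / 4 : ℝ) / (1 / 4) = 4 * (A.card : ℝ) ^ (1 / 4 : ℝ) := by ring
    rw [h3] at h1
    linarith
  have hdiv2 : ∀ s ∈ A + A, ∀ t ∈ A + A, s < t →
      ∑ p ∈ (t - s).primeFactors.filter (fun p => p ≤ A.card), Real.log p ≤
        4 * (A.card : ℝ) ^ (1 / 2 - ε) := by
    intro s hs t ht hst
    refine (hdiv s hs t ht hst).trans ?_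
    have h1 : (A.card : ℝ) ^ (1 / 2 - δ) ≤ (A.card : ℝ) ^ (1 / 2 - ε) :=
      Real.rpow_le_rpow_of_exponent_le (by linarith) (by linarith)
    have h2 : 0 ≤ (A.card : ℝ) ^ (1 / 2 - ε) := by positivity
    linarith
  have h1 := sumset_bound A hsq hA (4 * (A.card : ℝ) ^ (1 / 2 - ε)) hlogM hdiv2
  set M : ℝ := (A.card : ℝ) with hM
  have hM0 : 0 < M := by linarith
  refine habs M _ h0 (linear_bound A hA) ?_
  have hr : 0 < M ^ (1 / 2 - ε) := Real.rpow_pos_of_pos hM0 _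
  have h5 : M ^ (3 / 2 : ℝ) = M ^ (1 + ε) * M ^ (1 / 2 - ε) := by
    rw [← Real.rpow_add hM0]
    congr 1
    ring
  have h6 : M ^ (1 + ε) * M ^ (1 / 2 - ε) ≤
      (4000000 * ((A + A).card : ℝ)) * M ^ (1 / 2 - ε) := by
    rw [← h5]
    refine h1.trans (le_of_eq ?_)
    ring
  exact le_of_mul_le_mul_right h6 hr

end Pool.Agent.MP_af3031_nt
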