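import Mathlib
import Pool.Agent.Lib.MP_af3031_nt.Final

/-!
# The energy of a set of squares and an arbitrary set
-/

set_option autoImplicit false

namespace Pool.Agent.MP_af3031_nt

open Finset
open scoped Classical

theorem wt_eq_card (P : Finset ℕ) (n : ℤ) :
    wt P n = ((P.filter fun p : ℕ => (p : ℤ) ∣ n).card : ℝ) := by
  unfold wt
  rw [Finset.card_filter]
  push_cast
  rfl

theorem wt_self (P : Finset ℕ) : wt P 0 = P.card := by
  rw [wt_eq_card, Finset.filter_true_of_mem fun p _ => dvd_zero _]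

theorem csum_square_int (P : Finset ℕ) (hP : ∀ p ∈ P, p.Prime) (d : ℤ) (hd : IsSquare d) :
    csum P d = P.card - wt P d := by
  obtain ⟨r, hr⟩ := hd
  have h1 : d = ((r.natAbs * r.natAbs : ℕ) : ℤ) := by
    rw [hr, Nat.cast_mul, Int.natAbs_mul_self']
  rw [h1]
  exact csum_square P hP _ ⟨r.natAbs, rfl⟩

/-- The second moment of the weights of the differences. -/
noncomputable def SW (P : Finset ℕ) (B : Finset ℤ) : ℝ := ∑ b ∈ B, ∑ c ∈ B, wt P (b - c) ^ 2

theorem SW_nonneg (P : Finset ℕ) (B : Finset ℤ) : 0 ≤ SW P B :=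
  Finset.sum_nonneg fun _ _ => Finset.sum_nonneg fun _ _ => sq_nonneg _

theorem SW_eq (P : Finset ℕ) (B : Finset ℤ) :
    SW P B = (P.card : ℝ) ^ 2 * B.card + ∑ b ∈ B, ∑ c ∈ B.erase b, wt P (b - c) ^ 2 := by
  unfold SW
  have h1 : ∀ b ∈ B, ∑ c ∈ B, wt P (b - c) ^ 2 =
      (P.card : ℝ) ^ 2 + ∑ c ∈ B.erase b, wt P (b - c) ^ 2 := by
    intro b hb
    rw [← Finset.add_sum_erase B _ hb, sub_self, wt_self]
  rw [Finset.sum_congr rfl h1, Finset.sum_add_distrib, Finset.sum_const, nsmul_eq_mul]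
  ring

/-- The energy of a set of squares and a set of integers, in terms of a set of primes. -/
theorem energy_AB (A B : Finset ℤ) (hsq : ∀ a ∈ A, IsSquare a) (P : Finset ℕ)
    (hP : ∀ p ∈ P, p.Prime ∧ p ≠ 2) (Y : ℝ) (hY0 : 0 ≤ Y) (hY : ∀ p ∈ P, (p : ℝ) ≤ Y)
    (hPc : 0 < P.card) :
    (Finset.addEnergy A B : ℝ) ≤
      ((A.filter fun a => 3 / 4 * (P.card : ℝ) < wt P a).card : ℝ) * (B.card : ℝ) ^ 2 +
        16 * Y * A.card * (SW P B / (P.card : ℝ) ^ 2) := by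
  set K : ℝ := (P.card : ℝ) with hK
  have hK0 : 0 < K := by rw [hK]; exact_mod_cast hPc
  set Q : Finset ((ℤ × ℤ) × ℤ × ℤ) :=
    {x ∈ ((A ×ˢ A) ×ˢ B ×ˢ B) | x.1.1 + x.2.1 = x.1.2 + x.2.2} with hQ
  have hE : Finset.addEnergy A B = Q.card := rfl
  have hmemQ : ∀ x ∈ Q, (x.1.1 ∈ A ∧ x.1.2 ∈ A ∧ x.2.1 ∈ B ∧ x.2.2 ∈ B) ∧
      x.1.1 + x.2.1 = x.1.2 + x.2.2 := by
    intro x hx
    rw [hQ, Finset.mem_filter, Finset.mem_product, Finset.mem_product, Finset.mem_product] at hx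
    exact ⟨⟨hx.1.1.1, hx.1.1.2, hx.1.2.1, hx.1.2.2⟩, hx.2⟩
  set S1 : Finset ((ℤ × ℤ) × ℤ × ℤ) := Q.filter fun x => wt P x.1.2 ≤ 3 / 4 * K with hS1
  set S2 : Finset ((ℤ × ℤ) × ℤ × ℤ) := Q.filter fun x => ¬ wt P x.1.2 ≤ 3 / 4 * K with hS2
  have hcard : Q.card = S1.card + S2.card := by
    rw [hS1, hS2, Finset.card_filter_add_card_filter_not]
  -- the good part
  have hpart1 : (S1.card : ℝ) * (K / 4) ^ 2 ≤ A.card * (Y * SW P B) := by
    have h1 : (S1.card : ℝ) * (K / 4) ^ 2 ≤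
        ∑ x ∈ S1, csum P ((x.2.1 + x.1.1) - x.2.2) ^ 2 := by
      rw [← nsmul_eq_mul]
      refine Finset.card_nsmul_le_sum _ _ _ ?_
      intro x hx
      obtain ⟨hxQ, hxw⟩ := Finset.mem_filter.1 hx
      obtain ⟨⟨_, hx2, _, _⟩, hxe⟩ := hmemQ x hxQ
      have e1 : (x.2.1 + x.1.1) - x.2.2 = x.1.2 := by linarith
      rw [e1, csum_square_int P (fun p hp => (hP p hp).1) _ (hsq _ hx2)]
      refine pow_le_pow_left₀ (by positivity) ?_ 2
      rw [← hK]
      linarith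
    refine h1.trans ?_
    have h2 : ∑ x ∈ S1, csum P ((x.2.1 + x.1.1) - x.2.2) ^ 2 =
        ∑ y ∈ S1.image (fun x => (x.1.1, x.2.1, x.2.2)), csum P ((y.2.1 + y.1) - y.2.2) ^ 2 := by
      rw [Finset.sum_image]
      intro x hx y hy hxy
      have hx' := (hmemQ x (Finset.mem_filter.1 hx).1).2
      have hy' := (hmemQ y (Finset.mem_filter.1 hy).1).2
      simp only [Prod.mk.injEq] at hxy
      obtain ⟨e1, e2, e3⟩ := hxy
      ext
      · exact e1
      · linarith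
      · exact e2
      · exact e3
    rw [h2]
    have h3 : ∑ y ∈ S1.image (fun x => (x.1.1, x.2.1, x.2.2)),
        csum P ((y.2.1 + y.1) - y.2.2) ^ 2 ≤
        ∑ y ∈ A ×ˢ (B ×ˢ B), csum P ((y.2.1 + y.1) - y.2.2) ^ 2 := by
      refine Finset.sum_le_sum_of_subset_of_nonneg ?_ fun y _ _ => sq_nonneg _
      intro y hy
      obtain ⟨x, hx, rfl⟩ := Finset.mem_image.1 hy
      obtain ⟨⟨h4, _, h6, h7⟩, _⟩ := hmemQ x (Finset.mem_filter.1 hx).1
      rw [Finset.mem_product, Finset.mem_product]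
      exact ⟨h4, h6, h7⟩
    refine h3.trans ?_
    rw [Finset.sum_product]
    have h4 : ∀ a ∈ A, ∑ y ∈ B ×ˢ B, csum P ((y.1 + a) - y.2) ^ 2 ≤ Y * SW P B := by
      intro a _
      rw [Finset.sum_product]
      have h5 := csum_sq_le P Y hP hY hY0 B B (fun b : ℤ => b + a) (fun b : ℤ => b)
      refine h5.trans (le_of_eq ?_)
      have h6 : ∑ i ∈ B, ∑ j ∈ B, wt P ((i + a) - (j + a)) ^ 2 = SW P B := by
        unfold SW
        refine Finset.sum_congr rfl fun i _ => Finset.sum_congr rfl fun j _ => ?_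
        rw [add_sub_add_right_eq_sub]
      rw [h6]
      have h7 : ∑ i ∈ B, ∑ j ∈ B, wt P (i - j) ^ 2 = SW P B := rfl
      rw [h7, Real.mul_self_sqrt (SW_nonneg P B)]
    refine (Finset.sum_le_sum h4).trans (le_of_eq ?_)
    rw [Finset.sum_const, nsmul_eq_mul]
  have hpart1' : (S1.card : ℝ) ≤ 16 * Y * A.card * (SW P B / K ^ 2) := by
    have h1 : (S1.card : ℝ) * (K / 4) ^ 2 ≤ (16 * Y * A.card * (SW P B / K ^ 2)) * (K / 4) ^ 2 := by
      refine hpart1.trans (le_of_eq ?_)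
      field_simp
      ring
    exact le_of_mul_le_mul_right h1 (by positivity)
  -- the bad part
  have hpart2 : (S2.card : ℝ) ≤
      ((A.filter fun a => 3 / 4 * K < wt P a).card : ℝ) * (B.card : ℝ) ^ 2 := by
    have h1 : S2.card ≤ ((A.filter fun a => 3 / 4 * K < wt P a) ×ˢ (B ×ˢ B)).card := by
      refine Finset.card_le_card_of_injOn (fun x => (x.1.2, x.2.1, x.2.2)) ?_ ?_
      · intro x hx
        obtain ⟨hxQ, hxw⟩ := Finset.mem_filter.1 (Finset.mem_coe.1 hx)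
        obtain ⟨⟨_, h4, h5, h6⟩, _⟩ := hmemQ x hxQ
        exact Finset.mem_coe.2 (Finset.mem_product.2 ⟨Finset.mem_filter.2 ⟨h4, not_le.1 hxw⟩,
          Finset.mem_product.2 ⟨h5, h6⟩⟩)
      · intro x hx y hy hxy
        have hx' := (hmemQ x (Finset.mem_filter.1 (Finset.mem_coe.1 hx)).1).2
        have hy' := (hmemQ y (Finset.mem_filter.1 (Finset.mem_coe.1 hy)).1).2
        simp only [Prod.mk.injEq] at hxy
        obtain ⟨e1, e2, e3⟩ := hxy
        ext
        · linarith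
        · exact e1
        · exact e2
        · exact e3
    rw [Finset.card_product, Finset.card_product] at h1
    rw [sq]
    exact_mod_cast h1
  rw [hE, hcard]
  push_cast
  linarith

/-- Few elements of a set are divisible by most of the primes. -/
theorem bad_le (P : Finset ℕ) (hPc : 0 < P.card) (A : Finset ℤ) :
    ((A.filter fun a => 3 / 4 * (P.card : ℝ) < wt P a).card : ℝ) ≤
      1 + 2 * √((∑ b ∈ A, ∑ c ∈ A.erase b, wt P (b - c) ^ 2) / (P.card : ℝ) ^ 2) := by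
  set K : ℝ := (P.card : ℝ) with hK
  have hK0 : 0 < K := by rw [hK]; exact_mod_cast hPc
  set D := A.filter fun a => 3 / 4 * K < wt P a with hD
  set W : ℝ := (∑ b ∈ A, ∑ c ∈ A.erase b, wt P (b - c) ^ 2) / K ^ 2 with hW
  have hW0 : 0 ≤ W := by positivity
  have hpair : ∀ b ∈ D, ∀ c ∈ D, K / 2 ≤ wt P (b - c) := by
    intro b hb c hc
    have h1 := (Finset.mem_filter.1 hb).2
    have h2 := (Finset.mem_filter.1 hc).2
    have h4 : wt P b + wt P c ≤ K + wt P (b - c) := by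
      unfold wt
      rw [← Finset.sum_add_distrib]
      have h5 : K = ∑ p ∈ P, (1 : ℝ) := by simp [hK]
      rw [h5, ← Finset.sum_add_distrib]
      refine Finset.sum_le_sum fun p _ => ?_
      by_cases h6 : (p : ℤ) ∣ b
      · by_cases h7 : (p : ℤ) ∣ c
        · rw [if_pos h6, if_pos h7, if_pos (dvd_sub h6 h7)]
        · rw [if_pos h6, if_neg h7]
          split_ifs <;> norm_num
      · rw [if_neg h6]
        split_ifs <;> norm_num
    linarith
  have h1 : ((D.card : ℝ) * (D.card - 1)) * (K / 2) ^ 2 ≤ W * K ^ 2 := by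
    have h2 : W * K ^ 2 = ∑ b ∈ A, ∑ c ∈ A.erase b, wt P (b - c) ^ 2 := by
      rw [hW]
      field_simp
    rw [h2]
    have h3 : ∑ b ∈ D, ∑ c ∈ D.erase b, wt P (b - c) ^ 2 ≤
        ∑ b ∈ A, ∑ c ∈ A.erase b, wt P (b - c) ^ 2 := by
      refine (Finset.sum_le_sum fun b _ => ?_).trans
        (Finset.sum_le_sum_of_subset_of_nonneg (Finset.filter_subset _ _) fun b _ _ => ?_)
      · exact Finset.sum_le_sum_of_subset_of_nonneg
          (Finset.erase_subset_erase _ (Finset.filter_subset _ _)) fun c _ _ => sq_nonneg _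
      · exact Finset.sum_nonneg fun c _ => sq_nonneg _
    refine le_trans ?_ h3
    have h4 : ∀ b ∈ D, ((D.card : ℝ) - 1) * (K / 2) ^ 2 ≤ ∑ c ∈ D.erase b, wt P (b - c) ^ 2 := by
      intro b hb
      have h5 : ∀ c ∈ D.erase b, (K / 2) ^ 2 ≤ wt P (b - c) ^ 2 := fun c hc =>
        pow_le_pow_left₀ (by positivity) (hpair b hb c (Finset.mem_of_mem_erase hc)) 2
      have h6 := Finset.card_nsmul_le_sum _ _ _ h5
      rw [Finset.card_erase_of_mem hb, nsmul_eq_mul,
        Nat.cast_sub (Finset.card_pos.2 ⟨b, hb⟩), Nat.cast_one] at h6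
      exact h6
    have h7 := Finset.card_nsmul_le_sum _ _ _ h4
    rw [nsmul_eq_mul] at h7
    linarith
  have h2 : (D.card : ℝ) * (D.card - 1) ≤ 4 * W := by
    have h3 : ((D.card : ℝ) * (D.card - 1)) * (K / 2) ^ 2 ≤ (4 * W) * (K / 2) ^ 2 := by
      refine h1.trans (le_of_eq ?_)
      ring
    exact le_of_mul_le_mul_right h3 (by positivity)
  by_contra hcon
  have h3 : 1 + 2 * √W < (D.card : ℝ) := not_le.1 hcon
  have hs := Real.sq_sqrt hW0
  have hs0 := Real.sqrt_nonneg W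
  nlinarith

end Pool.Agent.MP_af3031_nt
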