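import Mathlib
import Pool.Agent.Lib.MP_af3031_nt.Gen

/-!
# Squares among the differences of two sets of bounded integers
-/

set_option autoImplicit false

namespace Pool.Agent.MP_af3031_nt

open Finset
open scoped Classical

/-- A nonzero integer of bounded size has few prime factors in `pset Y`. -/
theorem wt_pset_le (Y N : ℕ) (hY : 2 ≤ Y) (n : ℤ) (hn : n ≠ 0) (hnN : |n| ≤ 2 * N) :
    wt (pset Y) n ≤ 2 * Real.log (2 * N) / Real.log Y := by
  have h1 : wt (pset Y) n = wt (pset Y) (n.natAbs : ℤ) := by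
    rcases Int.natAbs_eq n with h | h
    · rw [← h]
    · have h2 : (n.natAbs : ℤ) = -n := by omega
      rw [h2, wt_neg]
  rw [h1]
  have hpos : 0 < n.natAbs := Int.natAbs_pos.2 hn
  refine wt_small (pset Y) Y Y ?_ hY _ n.natAbs hpos ?_
  · intro p hp
    obtain ⟨h3, h4, h5⟩ := mem_pset.1 hp
    exact ⟨h4, h3, h5⟩
  · refine (sum_log_primeFactors_le n.natAbs Y hpos).trans ?_
    refine Real.log_le_log (by exact_mod_cast hpos) ?_
    have h2 : n.natAbs ≤ 2 * N := by
      have h3 : ((n.natAbs : ℕ) : ℤ) ≤ ((2 * N : ℕ) : ℤ) := by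
        rw [Int.natCast_natAbs]
        exact_mod_cast hnN
      exact_mod_cast h3
    exact_mod_cast h2

/-- The number of pairs of `S × B` whose difference is a square. -/
theorem squares_in_diff (N : ℕ) (hN : 2 ≤ N) (S B : Finset ℤ) (hS : ∀ s ∈ S, |s| ≤ N)
    (hB : ∀ b ∈ B, |b| ≤ N) (hB0 : 0 < B.card) (hSB : B.card ≤ S.card) :
    (((S ×ˢ B).filter fun x => IsSquare (x.1 - x.2)).card : ℝ) ≤
      320000 * Real.log (2 * N) * (S.card * √(B.card)) := by
  set m : ℝ := (B.card : ℝ) with hm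
  set M : ℝ := (S.card : ℝ) with hM
  set L : ℝ := Real.log (2 * N) with hLdef
  have hm0 : 0 < m := by rw [hm]; exact_mod_cast hB0
  have hmM : m ≤ M := by rw [hm, hM]; exact_mod_cast hSB
  have hM0 : 0 < M := by linarith
  have hs : √m ^ 2 = m := Real.sq_sqrt hm0.le
  have hs0 : 0 < √m := Real.sqrt_pos.2 hm0
  have hL1 : 1 ≤ L := by
    have h1 : (4 : ℝ) ≤ 2 * N := by
      have : (2 : ℝ) ≤ N := by exact_mod_cast hN
      linarith
    have h2 : Real.log (Real.exp 1) ≤ L := by
      refine Real.log_le_log (Real.exp_pos 1) ?_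
      have := Real.exp_one_lt_d9
      linarith
    rwa [Real.log_exp] at h2
  set T := (S ×ˢ B).filter fun x => IsSquare (x.1 - x.2) with hT
  have htriv : (T.card : ℝ) ≤ M * m := by
    have h1 : T.card ≤ (S ×ˢ B).card := Finset.card_filter_le _ _
    rw [Finset.card_product] at h1
    rw [hM, hm]
    exact_mod_cast h1
  by_cases h1 : √m < 320000
  · refine htriv.trans ?_
    calc M * m = M * √m ^ 2 := by rw [hs]
      _ = √m * (M * √m) := by ring
      _ ≤ (320000 * L) * (M * √m) := by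
          refine mul_le_mul_of_nonneg_right ?_ (by positivity)
          linarith
      _ = _ := by ring
  have h1' : 320000 ≤ √m := not_lt.1 h1
  set Y : ℕ := ⌈8 * L * √m⌉₊ with hYdef
  have hYge : 8 * L * √m ≤ (Y : ℝ) := Nat.le_ceil _
  have hYbig : 2560000 ≤ Y := by
    have h3 : (2560000 : ℝ) ≤ (Y : ℝ) := by
      refine le_trans ?_ hYge
      calc (2560000 : ℝ) = 8 * 1 * 320000 := by norm_num
        _ ≤ 8 * L * √m := by gcongr
    exact_mod_cast h3
  have hcard := pset_card Y hYbig
  have hYR : (2560000 : ℝ) ≤ (Y : ℝ) := by exact_mod_cast hYbig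
  have hlogY : 0 < Real.log (Y : ℝ) := Real.log_pos (by linarith)
  set K : ℝ := ((pset Y).card : ℝ) with hK
  have hK0 : 0 < K := lt_of_lt_of_le (by positivity) hcard
  have hKc : 0 < (pset Y).card := by
    have h2 := hK0
    rw [hK] at h2
    exact_mod_cast h2
  have hsmall : 2 * L / Real.log Y ≤ K / √m := by
    rw [le_div_iff₀ hs0]
    refine le_trans ?_ hcard
    rw [div_mul_eq_mul_div, div_le_div_iff₀ hlogY (by positivity)]
    have h3 : 8 * L * √m * Real.log Y ≤ (Y : ℝ) * Real.log Y :=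
      mul_le_mul_of_nonneg_right hYge hlogY.le
    linarith
  have hwt : ∀ x y : ℤ, |x| ≤ N → |y| ≤ N → x ≠ y → wt (pset Y) (x - y) ≤ K / √m := by
    intro x y hx hy hxy
    refine (wt_pset_le Y N (by omega) (x - y) (sub_ne_zero.2 hxy) ?_).trans hsmall
    have := abs_sub x y
    linarith
  have hYle : (Y : ℝ) ≤ 9 * L * √m := by
    have h3 : (Y : ℝ) < 8 * L * √m + 1 := Nat.ceil_lt_add_one (by positivity)
    have h4 : 1 * 1 ≤ L * √m := mul_le_mul hL1 (by linarith) (by norm_num) (by linarith)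
    linarith
  have hone : ∀ (I : Finset ℤ), ∀ i ∈ I, ∀ R ⊆ I, (∀ j ∈ R, i = j) → (R.card : ℝ) ≤ 1 := by
    intro I i _ R _ hR
    have h2 : R.card ≤ 1 := by
      rw [Finset.card_le_one]
      intro x hx y hy
      exact (hR x hx).symm.trans (hR y hy)
    exact_mod_cast h2
  -- the two sums of weights
  have hI : SW (pset Y) S ≤ 2 * K ^ 2 * M ^ 2 / m := by
    have h2 := sum_wt_sq_le (pset Y) S (fun i : ℤ => i) (K / √m) 1
      (fun i hi j hj hij => hwt i j (hS i hi) (hS j hj) hij) (hone S)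
    refine h2.trans ?_
    rw [← hM, ← hK, div_pow, hs, le_div_iff₀ hm0]
    have h3 : M * (1 * K ^ 2 + M * (K ^ 2 / m)) * m = K ^ 2 * M * (m + M) := by
      field_simp
    rw [h3]
    calc K ^ 2 * M * (m + M) ≤ K ^ 2 * M * (M + M) := by gcongr
      _ = _ := by ring
  have hJ : SW (pset Y) B ≤ 2 * m * K ^ 2 := by
    have h2 := sum_wt_sq_le (pset Y) B (fun i : ℤ => i) (K / √m) 1
      (fun i hi j hj hij => hwt i j (hB i hi) (hB j hj) hij) (hone B)
    refine h2.trans (le_of_eq ?_)
    rw [← hm, ← hK, div_pow, hs]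
    field_simp
    ring
  have hmain := csum_sq_le (pset Y) Y (fun p hp => by
    obtain ⟨h3, h4, h5⟩ := mem_pset.1 hp
    refine ⟨h4, ?_⟩
    rintro rfl
    omega) (fun p hp => by exact_mod_cast (mem_pset.1 hp).1) (Nat.cast_nonneg Y) S B
    (fun i : ℤ => i) (fun i : ℤ => i)
  have hmain2 : ∑ i ∈ S, ∑ j ∈ B, csum (pset Y) (i - j) ^ 2 ≤ Y * (2 * K ^ 2 * M) := by
    refine hmain.trans (mul_le_mul_of_nonneg_left ?_ (Nat.cast_nonneg Y))
    have h2 : √(2 * K ^ 2 * M ^ 2 / m) * √(2 * m * K ^ 2) = 2 * K ^ 2 * M := by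
      rw [← Real.sqrt_mul (by positivity)]
      have h3 : 2 * K ^ 2 * M ^ 2 / m * (2 * m * K ^ 2) = (2 * K ^ 2 * M) ^ 2 := by
        field_simp
        try ring
      rw [h3]
      exact Real.sqrt_sq (by positivity)
    rw [← h2]
    exact mul_le_mul (Real.sqrt_le_sqrt hI) (Real.sqrt_le_sqrt hJ) (by positivity) (by positivity)
  -- the pairs with a nonzero difference
  have hgood : ((T.filter fun x => x.1 ≠ x.2).card : ℝ) * (K / 4) ^ 2 ≤ Y * (2 * K ^ 2 * M) := by
    have h2 : ((T.filter fun x => x.1 ≠ x.2).card : ℝ) * (K / 4) ^ 2 ≤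
        ∑ x ∈ T.filter fun x => x.1 ≠ x.2, csum (pset Y) (x.1 - x.2) ^ 2 := by
      rw [← nsmul_eq_mul]
      refine Finset.card_nsmul_le_sum _ _ _ ?_
      intro x hx
      obtain ⟨hxT, hne⟩ := Finset.mem_filter.1 hx
      obtain ⟨hxp, hsq⟩ := Finset.mem_filter.1 hxT
      obtain ⟨hx1, hx2⟩ := Finset.mem_product.1 hxp
      rw [csum_square_int (pset Y) (fun p hp => (mem_pset.1 hp).2.1) _ hsq]
      refine pow_le_pow_left₀ (by positivity) ?_ 2
      have h3 := hwt x.1 x.2 (hS _ hx1) (hB _ hx2) hne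
      have h4 : K / √m ≤ K / 2 := div_le_div_of_nonneg_left hK0.le (by norm_num) (by linarith)
      rw [← hK]
      linarith
    refine h2.trans (le_trans ?_ hmain2)
    rw [← Finset.sum_product' S B fun i j => csum (pset Y) (i - j) ^ 2]
    refine Finset.sum_le_sum_of_subset_of_nonneg ?_ fun y _ _ => sq_nonneg _
    exact (Finset.filter_subset _ _).trans (Finset.filter_subset _ _)
  have hgood' : ((T.filter fun x => x.1 ≠ x.2).card : ℝ) ≤ 32 * Y * M := by
    have h2 : ((T.filter fun x => x.1 ≠ x.2).card : ℝ) * (K / 4) ^ 2 ≤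
        (32 * Y * M) * (K / 4) ^ 2 := by
      refine hgood.trans (le_of_eq ?_)
      ring
    exact le_of_mul_le_mul_right h2 (by positivity)
  have hbad : ((T.filter fun x => ¬ x.1 ≠ x.2).card : ℝ) ≤ M := by
    have h2 : (T.filter fun x => ¬ x.1 ≠ x.2).card ≤ S.card := by
      refine Finset.card_le_card_of_injOn (fun x => x.1) ?_ ?_
      · intro x hx
        have h3 := (Finset.mem_filter.1 (Finset.mem_coe.1 hx)).1
        exact Finset.mem_coe.2 (Finset.mem_product.1 (Finset.mem_filter.1 h3).1).1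
      · intro x hx y hy hxy
        have h3 := not_not.1 (Finset.mem_filter.1 (Finset.mem_coe.1 hx)).2
        have h4 := not_not.1 (Finset.mem_filter.1 (Finset.mem_coe.1 hy)).2
        have h5 : x.1 = y.1 := hxy
        ext
        · exact h5
        · rw [← h3, ← h4, h5]
    rw [hM]
    exact_mod_cast h2
  have hsplit : (T.card : ℝ) = ((T.filter fun x => x.1 ≠ x.2).card : ℝ) +
      ((T.filter fun x => ¬ x.1 ≠ x.2).card : ℝ) := by
    have h2 := Finset.card_filter_add_card_filter_not (s := T) (fun x => x.1 ≠ x.2)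
    exact_mod_cast h2.symm
  have h5 : M ≤ L * (M * √m) := by
    have h4 : 1 * 1 ≤ L * √m := mul_le_mul hL1 (by linarith) (by norm_num) (by linarith)
    calc M = M * (1 * 1) := by ring
      _ ≤ M * (L * √m) := mul_le_mul_of_nonneg_left h4 hM0.le
      _ = _ := by ring
  have h6 : 32 * (Y : ℝ) * M ≤ 288 * (L * (M * √m)) := by
    calc 32 * (Y : ℝ) * M ≤ 32 * (9 * L * √m) * M := by gcongr
      _ = _ := by ring
  have h7 : 0 ≤ L * (M * √m) := by positivity
  rw [hsplit]
  linarith

open scoped Pointwise in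
/-- The sum of a set of squares up to `N` and any set of integers of absolute value at most `N`. -/
theorem expansion (N : ℕ) (hN : 2 ≤ N) (A B : Finset ℤ) (hA : ∀ a ∈ A, IsSquare a ∧ a ≤ N)
    (hB : ∀ b ∈ B, |b| ≤ N) (hB0 : B.Nonempty) :
    (A.card : ℝ) * √(B.card) ≤ 1000000 * Real.log N * ((A + B).card : ℝ) := by
  have hlogN : 0 < Real.log N := Real.log_pos (by exact_mod_cast (by omega : 1 < N))
  rcases A.eq_empty_or_nonempty with rfl | hA0
  · simp
  have hBc : 0 < B.card := Finset.card_pos.2 hB0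
  have hSB : B.card ≤ (A + B).card := Finset.card_le_card_add_left hA0
  have hAabs : ∀ a ∈ A, |a| ≤ N := by
    intro a ha
    obtain ⟨⟨r, hr⟩, h2⟩ := hA a ha
    rw [abs_of_nonneg (by rw [hr]; exact mul_self_nonneg r)]
    exact h2
  have h1 := squares_in_diff (2 * N) (by omega) (A + B) B ?_ ?_ hBc hSB
  · have hlog : Real.log (2 * ((2 * N : ℕ) : ℝ)) ≤ 3 * Real.log N := by
      have hN0 : (0 : ℝ) < N := by exact_mod_cast (by omega : 0 < N)
      have h2 : 2 * ((2 * N : ℕ) : ℝ) ≤ (N : ℝ) ^ 3 := by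
        have h3 : 2 * (2 * N) ≤ N ^ 3 := by
          calc 2 * (2 * N) = 2 * 2 * N := by ring
            _ ≤ N * N * N := Nat.mul_le_mul_right N (Nat.mul_le_mul hN hN)
            _ = N ^ 3 := by ring
        exact_mod_cast h3
      have h4 := Real.log_le_log (by positivity) h2
      rw [Real.log_pow] at h4
      exact_mod_cast h4
    have h2 : (A.card : ℝ) * B.card ≤
        ((((A + B) ×ˢ B).filter fun x => IsSquare (x.1 - x.2)).card : ℝ) := by
      have h3 : (A ×ˢ B).card ≤ (((A + B) ×ˢ B).filter fun x => IsSquare (x.1 - x.2)).card := by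
        refine Finset.card_le_card_of_injOn (fun x => (x.1 + x.2, x.2)) ?_ ?_
        · intro x hx
          obtain ⟨hx1, hx2⟩ := Finset.mem_product.1 (Finset.mem_coe.1 hx)
          refine Finset.mem_coe.2 (Finset.mem_filter.2
            ⟨Finset.mem_product.2 ⟨Finset.add_mem_add hx1 hx2, hx2⟩, ?_⟩)
          simpa using (hA _ hx1).1
        · intro x _ y _ hxy
          simp only [Prod.mk.injEq] at hxy
          obtain ⟨e1, e2⟩ := hxy
          ext
          · linarith
          · exact e2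
      rw [Finset.card_product] at h3
      exact_mod_cast h3
    have hs0 : 0 < √(B.card : ℝ) := Real.sqrt_pos.2 (by exact_mod_cast hBc)
    have hs : √(B.card : ℝ) * √(B.card : ℝ) = B.card := Real.mul_self_sqrt (Nat.cast_nonneg _)
    have h3 : ((A.card : ℝ) * √(B.card)) * √(B.card) ≤
        (1000000 * Real.log N * ((A + B).card : ℝ)) * √(B.card) := by
      calc ((A.card : ℝ) * √(B.card)) * √(B.card) = A.card * B.card := by
            rw [mul_assoc, hs]
        _ ≤ 320000 * Real.log (2 * ((2 * N : ℕ) : ℝ)) * (((A + B).card : ℝ) * √(B.card)) :=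
            h2.trans h1
        _ ≤ 320000 * (3 * Real.log N) * (((A + B).card : ℝ) * √(B.card)) := by gcongr
        _ ≤ (1000000 * Real.log N * ((A + B).card : ℝ)) * √(B.card) := by
            have h4 : 0 ≤ Real.log N * (((A + B).card : ℝ) * √(B.card)) := by positivity
            linarith
    exact le_of_mul_le_mul_right h3 hs0
  · intro s hs
    obtain ⟨a, ha, b, hb, rfl⟩ := Finset.mem_add.1 hs
    have h2 := hAabs a ha
    have h3 := hB b hb
    have h4 := abs_add_le a b
    push_cast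
    linarith
  · intro b hb
    have h2 := hB b hb
    push_cast
    have : (0 : ℤ) ≤ N := Int.natCast_nonneg N
    linarith

end Pool.Agent.MP_af3031_nt
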