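import Mathlib
import Pool.Agent.Lib.MP_af3031_nt.Diff

/-!
# Iterated sumsets, and a criterion in terms of the prime factors of the differences
-/

set_option autoImplicit false

namespace Pool.Agent.MP_af3031_nt

open Finset
open scoped Classical Pointwise

/-- The set of the sums of `k` elements of `A`. -/
noncomputable def ksum (A : Finset ℤ) (k : ℕ) : Finset ℤ :=
  (Fintype.piFinset fun _ : Fin k => A).image fun f => ∑ i, f i

theorem add_ksum_subset (A : Finset ℤ) (k : ℕ) : A + ksum A k ⊆ ksum A (k + 1) := by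
  intro s hs
  obtain ⟨a, ha, t, ht, rfl⟩ := Finset.mem_add.1 hs
  obtain ⟨f, hf, rfl⟩ := Finset.mem_image.1 ht
  refine Finset.mem_image.2 ⟨Fin.cons a f, ?_, ?_⟩
  · rw [Fintype.mem_piFinset]
    intro i
    refine Fin.cases ?_ (fun j => ?_) i
    · simpa using ha
    · simpa using Fintype.mem_piFinset.1 hf j
  · rw [Fin.sum_univ_succ]
    simp

theorem ksum_nonempty (A : Finset ℤ) (hA : A.Nonempty) (k : ℕ) : (ksum A k).Nonempty := by
  obtain ⟨a, ha⟩ := hA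
  exact ⟨_, Finset.mem_image.2 ⟨fun _ => a, Fintype.mem_piFinset.2 fun _ => ha, rfl⟩⟩

theorem ksum_abs (N : ℕ) (A : Finset ℤ) (hA : ∀ a ∈ A, |a| ≤ N) (k : ℕ) :
    ∀ s ∈ ksum A k, |s| ≤ k * N := by
  intro s hs
  obtain ⟨f, hf, rfl⟩ := Finset.mem_image.1 hs
  refine (Finset.abs_sum_le_sum_abs _ _).trans ?_
  refine (Finset.sum_le_sum fun i _ => hA _ (Fintype.mem_piFinset.1 hf i)).trans (le_of_eq ?_)
  simp

/-- Iterated sumsets of sets of squares. -/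
theorem ksum_bound (N : ℕ) (hN : 2 ≤ N) (A : Finset ℤ) (hA : ∀ a ∈ A, IsSquare a ∧ a ≤ N)
    (hA0 : A.Nonempty) (k : ℕ) (hk : 1 ≤ k) :
    ∀ j, j ≤ k → (A.card : ℝ) ^ (2 - 2 * (1 / 2 : ℝ) ^ j) ≤
      (1000000 * k * Real.log N) ^ 2 * ((ksum A j).card : ℝ) := by
  have hNR : (2 : ℝ) ≤ N := by exact_mod_cast hN
  have hlog : 0.69 ≤ Real.log N := by
    have h1 := Real.log_le_log (by norm_num) hNR
    have := Real.log_two_gt_d9
    linarith
  have hkR : (1 : ℝ) ≤ k := by exact_mod_cast hk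
  set D : ℝ := 1000000 * k * Real.log N with hD
  have hD1 : 1 ≤ D := by
    rw [hD]
    calc (1 : ℝ) ≤ 1000000 * 1 * 0.69 := by norm_num
      _ ≤ 1000000 * k * Real.log N := by gcongr
  have hAc : (1 : ℝ) ≤ A.card := by exact_mod_cast Finset.card_pos.2 hA0
  have hAabs : ∀ a ∈ A, |a| ≤ N := by
    intro a ha
    obtain ⟨⟨r, hr⟩, h2⟩ := hA a ha
    rw [abs_of_nonneg (by rw [hr]; exact mul_self_nonneg r)]
    exact h2
  intro j
  induction j with
  | zero =>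
    intro _
    have h1 : (1 : ℝ) ≤ ((ksum A 0).card : ℝ) := by
      exact_mod_cast Finset.card_pos.2 (ksum_nonempty A hA0 0)
    have h2 : (2 - 2 * (1 / 2 : ℝ) ^ 0) = 0 := by norm_num
    rw [h2, Real.rpow_zero]
    nlinarith
  | succ j ih =>
    intro hj
    have ih' := ih (by omega)
    have hexp := expansion ((j + 1) * N) (by nlinarith) A (ksum A j) ?_ ?_ (ksum_nonempty A hA0 j)
    · have h1 : Real.log (((j + 1) * N : ℕ) : ℝ) ≤ k * Real.log N := by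
        have h2 : (((j + 1) * N : ℕ) : ℝ) ≤ (N : ℝ) ^ k := by
          have h3 : (j + 1) * N ≤ N ^ k := by
            calc (j + 1) * N ≤ 2 ^ j * N := Nat.mul_le_mul_right N Nat.lt_two_pow_self
              _ ≤ N ^ j * N := Nat.mul_le_mul_right N (Nat.pow_le_pow_left hN j)
              _ = N ^ (j + 1) := by rw [pow_succ]
              _ ≤ N ^ k := Nat.pow_le_pow_right (by omega) hj
          exact_mod_cast h3
        have h4 := Real.log_le_log (by
          have : 0 < (j + 1) * N := by positivity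
          exact_mod_cast this) h2
        rwa [Real.log_pow] at h4
      have h2 : ((A + ksum A j).card : ℝ) ≤ ((ksum A (j + 1)).card : ℝ) := by
        exact_mod_cast Finset.card_le_card (add_ksum_subset A j)
      have h3 : (A.card : ℝ) * √((ksum A j).card) ≤ D * ((ksum A (j + 1)).card : ℝ) := by
        refine hexp.trans ?_
        calc 1000000 * Real.log (((j + 1) * N : ℕ) : ℝ) * ((A + ksum A j).card : ℝ)
            ≤ 1000000 * (k * Real.log N) * ((ksum A (j + 1)).card : ℝ) := by gcongr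
          _ = _ := by rw [hD]; ring
      have h4 : (A.card : ℝ) ^ (1 - (1 / 2 : ℝ) ^ j) ≤ D * √((ksum A j).card) := by
        have h5 := Real.sqrt_le_sqrt ih'
        rw [Real.sqrt_mul (by positivity), Real.sqrt_sq (by linarith), Real.sqrt_eq_rpow,
          ← Real.rpow_mul (by linarith)] at h5
        have h6 : (2 - 2 * (1 / 2 : ℝ) ^ j) * (1 / 2) = 1 - (1 / 2 : ℝ) ^ j := by ring
        rwa [h6] at h5
      have h5 : (2 - 2 * (1 / 2 : ℝ) ^ (j + 1)) = 1 + (1 - (1 / 2 : ℝ) ^ j) := by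
        rw [pow_succ]
        ring
      rw [h5, Real.rpow_add (by linarith), Real.rpow_one]
      calc (A.card : ℝ) * (A.card : ℝ) ^ (1 - (1 / 2 : ℝ) ^ j)
          ≤ A.card * (D * √((ksum A j).card)) := by gcongr
        _ = D * (A.card * √((ksum A j).card)) := by ring
        _ ≤ D * (D * ((ksum A (j + 1)).card : ℝ)) := by gcongr
        _ = _ := by ring
    · intro a ha
      refine ⟨(hA a ha).1, (hA a ha).2.trans ?_⟩
      push_cast
      have h1 : (0 : ℤ) ≤ j := Int.natCast_nonneg j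
      have h2 : (0 : ℤ) ≤ N := Int.natCast_nonneg N
      nlinarith
    · intro s hs
      refine (ksum_abs N A hAabs j s hs).trans ?_
      push_cast
      have h2 : (0 : ℤ) ≤ N := Int.natCast_nonneg N
      nlinarith

theorem wt_le_omega (Y : ℕ) (n : ℤ) (hn : n ≠ 0) :
    wt (pset Y) n ≤ ((n.natAbs.primeFactors.filter (fun p => p ≤ Y)).card : ℝ) := by
  rw [wt_eq_card]
  have h1 : ((pset Y).filter fun p : ℕ => (p : ℤ) ∣ n) ⊆
      n.natAbs.primeFactors.filter (fun p => p ≤ Y) := by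
    intro p hp
    obtain ⟨h2, h3⟩ := Finset.mem_filter.1 hp
    obtain ⟨h4, h5, _⟩ := mem_pset.1 h2
    rw [Finset.mem_filter, Nat.mem_primeFactors]
    exact ⟨⟨h5, Int.natCast_dvd.1 h3, Int.natAbs_ne_zero.2 hn⟩, h4⟩
  exact_mod_cast Finset.card_le_card h1

theorem linear_boundZ (A : Finset ℤ) (hA : 2 ≤ A.card) :
    3 / 2 * (A.card : ℝ) ≤ ((A + A).card : ℝ) := by
  have hne : A.Nonempty := Finset.card_pos.1 (by omega)
  have h1 : A.card + A.card - 1 ≤ (A + A).card := by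
    exact cauchy_davenport_add_of_linearOrder_isCancelAdd hne hne
  have h3 : ((A.card + A.card - 1 : ℕ) : ℝ) ≤ ((A + A).card : ℝ) := by exact_mod_cast h1
  have h4 : ((A.card + A.card - 1 : ℕ) : ℝ) = (A.card : ℝ) + A.card - 1 := by
    rw [Nat.cast_sub (by omega)]
    push_cast
    ring
  rw [h4] at h3
  have h5 : (2 : ℝ) ≤ (A.card : ℝ) := by exact_mod_cast hA
  linarith

/-- The energy bound from the mean square of the number of small prime factors. -/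
theorem energy_omega (δ : ℝ) (hδ : 0 < δ) (A : Finset ℤ) (hsq : ∀ a ∈ A, IsSquare a)
    (hA : 2 ≤ A.card) (Y : ℕ) (hY1 : (A.card : ℝ) ^ δ ≤ Y) (hY2 : (Y : ℝ) ≤ (A.card : ℝ) ^ (1 - δ))
    (hY : 2560000 ≤ Y)
    (hW : ∑ a ∈ A, ∑ b ∈ A.erase a,
      (((a - b).natAbs.primeFactors.filter (fun p => p ≤ Y)).card : ℝ) ^ 2 ≤
        (Y : ℝ) ^ (1 - δ) * (A.card : ℝ) ^ 2) :
    (Finset.addEnergy A A : ℝ) ≤
      (17 + 4096 / δ ^ 2 + 32 / δ) * (A.card : ℝ) ^ (3 - δ ^ 2 / 2) := by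
  set n : ℝ := (A.card : ℝ) with hn
  have hn2 : 2 ≤ n := by rw [hn]; exact_mod_cast hA
  have hn0 : 0 < n := by linarith
  have hY0 : (2560000 : ℝ) ≤ (Y : ℝ) := by exact_mod_cast hY
  have hYpos : (0 : ℝ) < (Y : ℝ) := by linarith
  have hδ2 : δ ≤ 1 / 2 := by
    by_contra h
    have h1 : n ^ (1 - δ) < n ^ δ := Real.rpow_lt_rpow_of_exponent_lt (by linarith) (by linarith)
    linarith
  have hcard := pset_card Y hY
  have hlogY : 0 < Real.log (Y : ℝ) := Real.log_pos (by linarith)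
  set K : ℝ := ((pset Y).card : ℝ) with hK
  have hK0 : 0 < K := lt_of_lt_of_le (by positivity) hcard
  have hKc : 0 < (pset Y).card := by
    have h2 := hK0
    rw [hK] at h2
    exact_mod_cast h2
  set W : ℝ := (∑ b ∈ A, ∑ c ∈ A.erase b, wt (pset Y) (b - c) ^ 2) / K ^ 2 with hWdef
  have hW0 : 0 ≤ W := by positivity
  set l : ℝ := Real.log Y with hl
  have hKinv : 1 / K ^ 2 ≤ 16 * l ^ 2 / (Y : ℝ) ^ 2 := by
    rw [div_le_div_iff₀ (by positivity) (by positivity)]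
    have h1 : (Y : ℝ) ≤ K * (4 * l) := by
      rwa [div_le_iff₀ (by positivity)] at hcard
    calc 1 * (Y : ℝ) ^ 2 ≤ (K * (4 * l)) ^ 2 := by rw [one_mul]; gcongr
      _ = _ := by ring
  have hWle : W ≤ (Y : ℝ) ^ (1 - δ) * n ^ 2 * (16 * l ^ 2 / (Y : ℝ) ^ 2) := by
    have h1 : ∑ b ∈ A, ∑ c ∈ A.erase b, wt (pset Y) (b - c) ^ 2 ≤ (Y : ℝ) ^ (1 - δ) * n ^ 2 := by
      refine le_trans (Finset.sum_le_sum fun b _ => Finset.sum_le_sum fun c hc => ?_) hW
      refine pow_le_pow_left₀ (wt_nonneg _ _) (wt_le_omega Y _ ?_) 2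
      exact sub_ne_zero.2 (Finset.ne_of_mem_erase hc).symm
    rw [hWdef, div_eq_mul_one_div]
    exact mul_le_mul h1 hKinv (by positivity) (by positivity)
  have hlog : l ≤ 4 / δ * (Y : ℝ) ^ (δ / 4) := by
    have h1 := Real.log_le_rpow_div hYpos.le (show 0 < δ / 4 by positivity)
    refine h1.trans (le_of_eq ?_)
    field_simp
  have hYrp : ∀ s : ℝ, 0 < (Y : ℝ) ^ s := fun s => Real.rpow_pos_of_pos hYpos s
  -- the power of `Y` against the power of `n`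
  have hYn : (Y : ℝ) ^ (-(δ / 2)) ≤ n ^ (-(δ ^ 2 / 2)) := by
    have h1 : (n ^ δ) ^ (δ / 2) ≤ (Y : ℝ) ^ (δ / 2) :=
      Real.rpow_le_rpow (by positivity) hY1 (by positivity)
    rw [← Real.rpow_mul hn0.le] at h1
    have h2 : δ * (δ / 2) = δ ^ 2 / 2 := by ring
    rw [h2] at h1
    rw [Real.rpow_neg hYpos.le, Real.rpow_neg hn0.le]
    exact inv_anti₀ (Real.rpow_pos_of_pos hn0 _) h1
  have hYW : Y * W ≤ 256 / δ ^ 2 * ((Y : ℝ) ^ (-(δ / 2)) * n ^ 2) := by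
    have h1 : (Y : ℝ) * ((Y : ℝ) ^ (1 - δ) * n ^ 2 * (16 * l ^ 2 / (Y : ℝ) ^ 2)) =
        16 * l ^ 2 * (Y : ℝ) ^ (-δ) * n ^ 2 := by
      have h2 : (Y : ℝ) ^ (1 - δ) = Y * (Y : ℝ) ^ (-δ) := by
        rw [show 1 - δ = 1 + -δ by ring, Real.rpow_add hYpos, Real.rpow_one]
      rw [h2]
      field_simp
    have h3 : l ^ 2 ≤ 16 / δ ^ 2 * (Y : ℝ) ^ (δ / 2) := by
      have h4 := pow_le_pow_left₀ hlogY.le hlog 2
      refine h4.trans (le_of_eq ?_)
      rw [mul_pow, ← Real.rpow_natCast ((Y : ℝ) ^ (δ / 4)) 2, ← Real.rpow_mul hYpos.le, div_pow]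
      norm_num
      left
      congr 1
      ring
    calc (Y : ℝ) * W ≤ (Y : ℝ) * ((Y : ℝ) ^ (1 - δ) * n ^ 2 * (16 * l ^ 2 / (Y : ℝ) ^ 2)) := by
          gcongr
      _ = 16 * l ^ 2 * (Y : ℝ) ^ (-δ) * n ^ 2 := h1
      _ ≤ 16 * (16 / δ ^ 2 * (Y : ℝ) ^ (δ / 2)) * (Y : ℝ) ^ (-δ) * n ^ 2 := by
          gcongr
      _ = 256 / δ ^ 2 * (((Y : ℝ) ^ (δ / 2) * (Y : ℝ) ^ (-δ)) * n ^ 2) := by ring
      _ = _ := by
          rw [← Real.rpow_add hYpos]
          congr 3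
          ring
  have hsW : √W ≤ 16 / δ * ((Y : ℝ) ^ (-(δ / 2)) * n) := by
    have h1 : W ≤ (16 / δ * ((Y : ℝ) ^ (-(δ / 2)) * n)) ^ 2 := by
      have h2 : W ≤ (256 / δ ^ 2 * ((Y : ℝ) ^ (-(δ / 2)) * n ^ 2)) / Y := by
        rw [le_div_iff₀ hYpos]
        linarith
      refine h2.trans ?_
      have h3 : (16 / δ * ((Y : ℝ) ^ (-(δ / 2)) * n)) ^ 2 =
          256 / δ ^ 2 * ((Y : ℝ) ^ (-(δ / 2)) * n ^ 2) * (Y : ℝ) ^ (-(δ / 2)) := by
        rw [mul_pow, mul_pow, div_pow]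
        ring
      rw [h3, div_eq_mul_inv]
      refine mul_le_mul_of_nonneg_left ?_ (by positivity)
      rw [← Real.rpow_neg_one]
      exact Real.rpow_le_rpow_of_exponent_le (by linarith) (by linarith)
    have h2 := Real.sqrt_le_sqrt h1
    rwa [Real.sqrt_sq (by positivity)] at h2
  have hmain := energy_AB A A hsq (pset Y) (fun p hp => by
    obtain ⟨h3, h4, h5⟩ := mem_pset.1 hp
    refine ⟨h4, ?_⟩
    rintro rfl
    omega) Y (Nat.cast_nonneg Y) (fun p hp => by exact_mod_cast (mem_pset.1 hp).1) hKc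
  have hbad := bad_le (pset Y) hKc A
  rw [← hK, ← hWdef] at hbad
  have hSW : SW (pset Y) A / K ^ 2 = n + W := by
    rw [SW_eq, ← hK, ← hn, add_div, ← hWdef]
    congr 1
    field_simp
  rw [← hK, hSW, ← hn] at hmain
  have hpow : n ^ (3 - δ ^ 2 / 2) = n ^ 3 * n ^ (-(δ ^ 2 / 2)) := by
    rw [sub_eq_add_neg, Real.rpow_add hn0]
    congr 1
    exact_mod_cast Real.rpow_natCast n 3
  set z : ℝ := n ^ (-(δ ^ 2 / 2)) with hz
  have hz0 : 0 < z := Real.rpow_pos_of_pos hn0 _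
  -- the four terms
  have t1 : n ^ 2 ≤ n ^ 3 * z := by
    have h1 : n ^ (-1 : ℝ) ≤ z := Real.rpow_le_rpow_of_exponent_le (by linarith) (by nlinarith)
    have h2 : n ^ 2 = n ^ 3 * n ^ (-1 : ℝ) := by
      rw [Real.rpow_neg_one]
      field_simp
    rw [h2]
    gcongr
  have t2 : 16 * Y * n * n ≤ 16 * (n ^ 3 * z) := by
    have h1 : n ^ (-δ) ≤ z := Real.rpow_le_rpow_of_exponent_le (by linarith) (by nlinarith)
    have h2 : n ^ (1 - δ) = n * n ^ (-δ) := by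
      rw [show 1 - δ = 1 + -δ by ring, Real.rpow_add hn0, Real.rpow_one]
    rw [h2] at hY2
    calc 16 * (Y : ℝ) * n * n ≤ 16 * (n * n ^ (-δ)) * n * n := by gcongr
      _ ≤ 16 * (n * z) * n * n := by gcongr
      _ = _ := by ring
  have t3 : 16 * Y * n * W ≤ 4096 / δ ^ 2 * (n ^ 3 * z) := by
    calc 16 * (Y : ℝ) * n * W = 16 * n * (Y * W) := by ring
      _ ≤ 16 * n * (256 / δ ^ 2 * ((Y : ℝ) ^ (-(δ / 2)) * n ^ 2)) := by gcongr
      _ ≤ 16 * n * (256 / δ ^ 2 * (z * n ^ 2)) := by gcongr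
      _ = _ := by ring
  have t4 : 2 * √W * n ^ 2 ≤ 32 / δ * (n ^ 3 * z) := by
    calc 2 * √W * n ^ 2 ≤ 2 * (16 / δ * ((Y : ℝ) ^ (-(δ / 2)) * n)) * n ^ 2 := by gcongr
      _ ≤ 2 * (16 / δ * (z * n)) * n ^ 2 := by gcongr
      _ = _ := by ring
  rw [hpow]
  calc (Finset.addEnergy A A : ℝ)
      ≤ ((A.filter fun a => 3 / 4 * K < wt (pset Y) a).card : ℝ) * n ^ 2 +
        16 * Y * n * (n + W) := hmain
    _ ≤ (1 + 2 * √W) * n ^ 2 + 16 * Y * n * (n + W) := by gcongr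
    _ = n ^ 2 + 2 * √W * n ^ 2 + 16 * Y * n * n + 16 * Y * n * W := by ring
    _ ≤ n ^ 3 * z + 32 / δ * (n ^ 3 * z) + 16 * (n ^ 3 * z) + 4096 / δ ^ 2 * (n ^ 3 * z) := by
        linarith
    _ = _ := by ring

/-- The criterion for integers. -/
theorem criterionZ (δ : ℝ) (hδ : 0 < δ) : ∃ c : ℝ, 0 < c ∧ ∀ A : Finset ℤ,
    (∀ a ∈ A, IsSquare a) → 2 ≤ A.card → ∀ Y : ℕ, (A.card : ℝ) ^ δ ≤ Y →
    (Y : ℝ) ≤ (A.card : ℝ) ^ (1 - δ) →
    ∑ a ∈ A, ∑ b ∈ A.erase a,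
      (((a - b).natAbs.primeFactors.filter (fun p => p ≤ Y)).card : ℝ) ^ 2 ≤
        (Y : ℝ) ^ (1 - δ) * (A.card : ℝ) ^ 2 →
    (A.card : ℝ) ^ (1 + c) ≤ ((A + A).card : ℝ) := by
  obtain ⟨c, hc, habs⟩ := absorb (δ ^ 2 / 2) (2560000 + (17 + 4096 / δ ^ 2 + 32 / δ))
    (by positivity)
  refine ⟨c, hc, fun A hsq hA Y hY1 hY2 hW => ?_⟩
  have hn2 : 2 ≤ (A.card : ℝ) := by exact_mod_cast hA
  have hn0 : 0 < (A.card : ℝ) := by linarith
  have hδ2 : δ ≤ 1 / 2 := by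
    by_contra h
    have h1 : (A.card : ℝ) ^ (1 - δ) < (A.card : ℝ) ^ δ :=
      Real.rpow_lt_rpow_of_exponent_lt (by linarith) (by linarith)
    linarith
  have hlin := linear_boundZ A hA
  refine habs _ _ hn2 hlin ?_
  have hT0 : 0 ≤ ((A + A).card : ℝ) := Nat.cast_nonneg _
  by_cases hY : 2560000 ≤ Y
  · have hE := energy_omega δ hδ A hsq hA Y hY1 hY2 hY hW
    set C : ℝ := 17 + 4096 / δ ^ 2 + 32 / δ with hC
    have hC0 : 0 < C := by positivity
    have h1 : (A.card : ℝ) ^ 2 * (A.card : ℝ) ^ 2 ≤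
        ((A + A).card : ℝ) * (Finset.addEnergy A A : ℝ) := by
      exact_mod_cast Finset.le_card_add_mul_addEnergy A A
    have h2 : (A.card : ℝ) ^ 2 * (A.card : ℝ) ^ 2 ≤
        ((A + A).card : ℝ) * (C * (A.card : ℝ) ^ (3 - δ ^ 2 / 2)) :=
      h1.trans (mul_le_mul_of_nonneg_left hE hT0)
    have h3 : (A.card : ℝ) ^ 2 * (A.card : ℝ) ^ 2 =
        (A.card : ℝ) ^ (1 + δ ^ 2 / 2) * (A.card : ℝ) ^ (3 - δ ^ 2 / 2) := by
      rw [← Real.rpow_add hn0, ← pow_add]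
      have : (1 + δ ^ 2 / 2 + (3 - δ ^ 2 / 2)) = ((4 : ℕ) : ℝ) := by norm_num
      rw [this, Real.rpow_natCast]
    rw [h3] at h2
    have h4 : (A.card : ℝ) ^ (1 + δ ^ 2 / 2) * (A.card : ℝ) ^ (3 - δ ^ 2 / 2) ≤
        (C * ((A + A).card : ℝ)) * (A.card : ℝ) ^ (3 - δ ^ 2 / 2) := by
      refine h2.trans (le_of_eq ?_)
      ring
    have h5 := le_of_mul_le_mul_right h4 (Real.rpow_pos_of_pos hn0 _)
    nlinarith
  · have hYR : (Y : ℝ) ≤ 2560000 := by
      have : Y ≤ 2560000 := by omega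
      exact_mod_cast this
    have h1 : (A.card : ℝ) ^ (δ ^ 2 / 2) ≤ 2560000 := by
      have h2 : δ ^ 2 / 2 = δ * (δ / 2) := by ring
      rw [h2, Real.rpow_mul hn0.le]
      calc ((A.card : ℝ) ^ δ) ^ (δ / 2) ≤ (2560000 : ℝ) ^ (δ / 2) :=
            Real.rpow_le_rpow (by positivity) (hY1.trans hYR) (by positivity)
        _ ≤ (2560000 : ℝ) ^ (1 : ℝ) :=
            Real.rpow_le_rpow_of_exponent_le (by norm_num) (by linarith)
        _ = 2560000 := Real.rpow_one _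
    rw [Real.rpow_add hn0, Real.rpow_one]
    have hC0 : 0 < 17 + 4096 / δ ^ 2 + 32 / δ := by positivity
    calc (A.card : ℝ) * (A.card : ℝ) ^ (δ ^ 2 / 2) ≤ (A.card : ℝ) * 2560000 := by gcongr
      _ ≤ ((A + A).card : ℝ) * 2560000 := by
          refine mul_le_mul_of_nonneg_right ?_ (by norm_num)
          linarith
      _ ≤ _ := by nlinarith

end Pool.Agent.MP_af3031_nt
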