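import Mathlib
import Pool.Agent.Lib.MP_af3031_nt.Crit

/-!
# The criterion with an arbitrary set of primes, and the versions for natural numbers
-/

set_option autoImplicit false

namespace Pool.Agent.MP_af3031_nt

open Finset
open scoped Classical Pointwise

/-- Growth from a set of primes which rarely divide the differences. -/
theorem criterionP (δ : ℝ) (hδ : 0 < δ) (A : Finset ℤ) (hsq : ∀ a ∈ A, IsSquare a)
    (hA : 2 ≤ A.card) (Y : ℝ) (hY1 : (A.card : ℝ) ^ δ ≤ Y) (hY2 : Y ≤ (A.card : ℝ) ^ (1 - δ))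
    (P : Finset ℕ) (hP : ∀ p ∈ P, p.Prime ∧ p ≠ 2 ∧ (p : ℝ) ≤ Y) (hPc : P.Nonempty)
    (hW : ∑ a ∈ A, ∑ b ∈ A.erase a, wt P (a - b) ^ 2 ≤
      Y ^ (-1 - δ) * (P.card : ℝ) ^ 2 * (A.card : ℝ) ^ 2) :
    (A.card : ℝ) ^ (1 + δ ^ 2) ≤ 35 * ((A + A).card : ℝ) := by
  set n : ℝ := (A.card : ℝ) with hn
  have hn2 : 2 ≤ n := by rw [hn]; exact_mod_cast hA
  have hn0 : 0 < n := by linarith
  have hδ2 : δ ≤ 1 / 2 := by
    by_contra h
    have h1 : n ^ (1 - δ) < n ^ δ := Real.rpow_lt_rpow_of_exponent_lt (by linarith) (by linarith)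
    linarith
  have hnδ : 1 ≤ n ^ δ := Real.one_le_rpow (by linarith) hδ.le
  have hYpos : 0 < Y := by linarith
  have hY1' : 1 ≤ Y := by linarith
  set K : ℝ := (P.card : ℝ) with hK
  have hKc : 0 < P.card := Finset.card_pos.2 hPc
  have hK0 : 0 < K := by rw [hK]; exact_mod_cast hKc
  set W : ℝ := (∑ b ∈ A, ∑ c ∈ A.erase b, wt P (b - c) ^ 2) / K ^ 2 with hWdef
  have hW0 : 0 ≤ W := by positivity
  have hWle : W ≤ Y ^ (-1 - δ) * n ^ 2 := by
    rw [hWdef, div_le_iff₀ (by positivity)]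
    refine hW.trans (le_of_eq ?_)
    ring
  set z : ℝ := n ^ (-(δ ^ 2)) with hz
  have hz0 : 0 < z := Real.rpow_pos_of_pos hn0 _
  have hYn : Y ^ (-δ) ≤ z := by
    have h1 : (n ^ δ) ^ δ ≤ Y ^ δ := Real.rpow_le_rpow (by positivity) hY1 hδ.le
    rw [← Real.rpow_mul hn0.le] at h1
    have h2 : δ * δ = δ ^ 2 := by ring
    rw [h2] at h1
    rw [hz, Real.rpow_neg hYpos.le, Real.rpow_neg hn0.le]
    exact inv_anti₀ (Real.rpow_pos_of_pos hn0 _) h1
  have hYz : Y ^ (-1 - δ) ≤ z ^ 2 := by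
    have h1 : Y ^ (-1 - δ) ≤ Y ^ (-δ * 2) :=
      Real.rpow_le_rpow_of_exponent_le hY1' (by linarith)
    rw [Real.rpow_mul hYpos.le] at h1
    refine h1.trans ?_
    have h2 : (Y ^ (-δ)) ^ (2 : ℝ) = (Y ^ (-δ)) ^ 2 := Real.rpow_two _
    rw [h2]
    exact pow_le_pow_left₀ (by positivity) hYn 2
  have hYW : Y * W ≤ z * n ^ 2 := by
    calc Y * W ≤ Y * (Y ^ (-1 - δ) * n ^ 2) := by gcongr
      _ = (Y ^ (1 : ℝ) * Y ^ (-1 - δ)) * n ^ 2 := by rw [Real.rpow_one]; ring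
      _ = Y ^ (-δ) * n ^ 2 := by
          rw [← Real.rpow_add hYpos]
          congr 2
          ring
      _ ≤ z * n ^ 2 := by gcongr
  have hsW : √W ≤ z * n := by
    have h1 : W ≤ (z * n) ^ 2 := by
      refine hWle.trans ?_
      rw [mul_pow]
      gcongr
    have h2 := Real.sqrt_le_sqrt h1
    rwa [Real.sqrt_sq (by positivity)] at h2
  have hmain := energy_AB A A hsq P (fun p hp => ⟨(hP p hp).1, (hP p hp).2.1⟩) Y hYpos.le
    (fun p hp => (hP p hp).2.2) hKc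
  have hbad := bad_le P hKc A
  rw [← hK, ← hWdef] at hbad
  have hSW : SW P A / K ^ 2 = n + W := by
    rw [SW_eq, ← hK, ← hn, add_div, ← hWdef]
    congr 1
    field_simp
  rw [← hK, hSW, ← hn] at hmain
  have t1 : n ^ 2 ≤ n ^ 3 * z := by
    have h1 : n ^ (-1 : ℝ) ≤ z := Real.rpow_le_rpow_of_exponent_le (by linarith) (by nlinarith)
    have h2 : n ^ 2 = n ^ 3 * n ^ (-1 : ℝ) := by
      rw [Real.rpow_neg_one]
      field_simp
    rw [h2]
    gcongr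
  have t2 : 16 * Y * n * n ≤ 16 * (n ^ 3 * z) := by
    have h1 : n ^ (-δ) ≤ z := Real.rpow_le_rpow_of_exponent_le (by linarith) (by nlinarith)
    have h2 : n ^ (1 - δ) = n * n ^ (-δ) := by
      rw [show 1 - δ = 1 + -δ by ring, Real.rpow_add hn0, Real.rpow_one]
    rw [h2] at hY2
    calc 16 * Y * n * n ≤ 16 * (n * n ^ (-δ)) * n * n := by gcongr
      _ ≤ 16 * (n * z) * n * n := by gcongr
      _ = _ := by ring
  have t3 : 16 * Y * n * W ≤ 16 * (n ^ 3 * z) := by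
    calc 16 * Y * n * W = 16 * n * (Y * W) := by ring
      _ ≤ 16 * n * (z * n ^ 2) := by gcongr
      _ = _ := by ring
  have t4 : 2 * √W * n ^ 2 ≤ 2 * (n ^ 3 * z) := by
    calc 2 * √W * n ^ 2 ≤ 2 * (z * n) * n ^ 2 := by gcongr
      _ = _ := by ring
  have hE : (Finset.addEnergy A A : ℝ) ≤ 35 * (n ^ 3 * z) := by
    calc (Finset.addEnergy A A : ℝ)
        ≤ ((A.filter fun a => 3 / 4 * K < wt P a).card : ℝ) * n ^ 2 +
          16 * Y * n * (n + W) := hmain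
      _ ≤ (1 + 2 * √W) * n ^ 2 + 16 * Y * n * (n + W) := by gcongr
      _ = n ^ 2 + 2 * √W * n ^ 2 + 16 * Y * n * n + 16 * Y * n * W := by ring
      _ ≤ n ^ 3 * z + 2 * (n ^ 3 * z) + 16 * (n ^ 3 * z) + 16 * (n ^ 3 * z) := by linarith
      _ = _ := by ring
  have h1 : n ^ 2 * n ^ 2 ≤ ((A + A).card : ℝ) * (Finset.addEnergy A A : ℝ) := by
    rw [hn]
    exact_mod_cast Finset.le_card_add_mul_addEnergy A A
  have h2 : n ^ 2 * n ^ 2 ≤ ((A + A).card : ℝ) * (35 * (n ^ 3 * z)) :=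
    h1.trans (mul_le_mul_of_nonneg_left hE (Nat.cast_nonneg _))
  have h3 : n ^ (1 + δ ^ 2) * z = n := by
    rw [hz, ← Real.rpow_add hn0]
    simp
  have h4 : n ^ (1 + δ ^ 2) * (n ^ 3 * z) ≤ (35 * ((A + A).card : ℝ)) * (n ^ 3 * z) := by
    calc n ^ (1 + δ ^ 2) * (n ^ 3 * z) = (n ^ (1 + δ ^ 2) * z) * n ^ 3 := by ring
      _ = n * n ^ 3 := by rw [h3]
      _ = n ^ 2 * n ^ 2 := by ring
      _ ≤ ((A + A).card : ℝ) * (35 * (n ^ 3 * z)) := h2
      _ = _ := by ring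
  exact le_of_mul_le_mul_right h4 (by positivity)

theorem card_add_map (A : Finset ℕ) :
    ((A.map Nat.castEmbedding : Finset ℤ) + (A.map Nat.castEmbedding : Finset ℤ)).card =
      (A + A).card := by
  have h1 : (A.map Nat.castEmbedding : Finset ℤ) = A.image (Nat.castAddMonoidHom ℤ) := by
    rw [Finset.map_eq_image]
    rfl
  have h2 : Function.Injective (Nat.castAddMonoidHom ℤ) := fun x y hxy => by
    simpa using hxy
  rw [h1, ← Finset.image_add, Finset.card_image_of_injective _ h2]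

/-- The criterion for natural numbers. -/
theorem criterion (δ : ℝ) (hδ : 0 < δ) : ∃ c : ℝ, 0 < c ∧ ∀ A : Finset ℕ,
    (∀ a ∈ A, IsSquare a) → 2 ≤ A.card → ∀ Y : ℕ, (A.card : ℝ) ^ δ ≤ Y →
    (Y : ℝ) ≤ (A.card : ℝ) ^ (1 - δ) →
    ∑ a ∈ A, ∑ b ∈ A.erase a,
      ((((a : ℤ) - b).natAbs.primeFactors.filter (fun p => p ≤ Y)).card : ℝ) ^ 2 ≤
        (Y : ℝ) ^ (1 - δ) * (A.card : ℝ) ^ 2 →
    (A.card : ℝ) ^ (1 + c) ≤ ((A + A).card : ℝ) := by
  obtain ⟨c, hc, h⟩ := criterionZ δ hδ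
  refine ⟨c, hc, fun A hsq hA Y hY1 hY2 hW => ?_⟩
  have h1 := h (A.map Nat.castEmbedding) ?_ (by rwa [Finset.card_map]) Y
    (by rwa [Finset.card_map]) (by rwa [Finset.card_map]) ?_
  · rwa [Finset.card_map, card_add_map] at h1
  · intro a ha
    obtain ⟨b, hb, rfl⟩ := Finset.mem_map.1 ha
    obtain ⟨r, hr⟩ := hsq b hb
    exact ⟨(r : ℤ), by rw [hr]; simp⟩
  · rw [Finset.card_map, Finset.sum_map]
    refine le_trans (le_of_eq ?_) hW
    refine Finset.sum_congr rfl fun a _ => ?_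
    rw [← Finset.map_erase, Finset.sum_map]
    rfl

end Pool.Agent.MP_af3031_nt
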