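import Mathlib
import Pool.Agent.Lib.MP_af3031_nt.Crit2

/-!
# The energy of a set of squares and an arbitrary set of bounded integers
-/

set_option autoImplicit false

namespace Pool.Agent.MP_af3031_nt

open Finset
open scoped Classical

/-- The first trivial bound for the energy. -/
theorem energy_triv1 (A B : Finset ℤ) :
    (Finset.addEnergy A B : ℝ) ≤ A.card * (B.card : ℝ) ^ 2 := by
  have h1 : Finset.addEnergy A B ≤ (A ×ˢ (B ×ˢ B)).card := by
    refine Finset.card_le_card_of_injOn (fun x => (x.1.1, x.2.1, x.2.2)) ?_ ?_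
    · intro x hx
      have hx' := (Finset.mem_filter.1 (Finset.mem_coe.1 hx)).1
      rw [Finset.mem_product, Finset.mem_product, Finset.mem_product] at hx'
      exact Finset.mem_coe.2 (Finset.mem_product.2 ⟨hx'.1.1,
        Finset.mem_product.2 ⟨hx'.2.1, hx'.2.2⟩⟩)
    · intro x hx y hy hxy
      have hx' := (Finset.mem_filter.1 (Finset.mem_coe.1 hx)).2
      have hy' := (Finset.mem_filter.1 (Finset.mem_coe.1 hy)).2
      simp only [Prod.mk.injEq] at hxy
      obtain ⟨e1, e2, e3⟩ := hxy
      ext
      · exact e1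
      · linarith
      · exact e2
      · exact e3
  rw [Finset.card_product, Finset.card_product] at h1
  rw [sq]
  exact_mod_cast h1

/-- The second trivial bound for the energy. -/
theorem energy_triv2 (A B : Finset ℤ) :
    (Finset.addEnergy A B : ℝ) ≤ (A.card : ℝ) ^ 2 * B.card := by
  have h1 : Finset.addEnergy A B ≤ ((A ×ˢ A) ×ˢ B).card := by
    refine Finset.card_le_card_of_injOn (fun x => ((x.1.1, x.1.2), x.2.1)) ?_ ?_
    · intro x hx
      have hx' := (Finset.mem_filter.1 (Finset.mem_coe.1 hx)).1
      rw [Finset.mem_product, Finset.mem_product, Finset.mem_product] at hx'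
      exact Finset.mem_coe.2 (Finset.mem_product.2 ⟨Finset.mem_product.2 ⟨hx'.1.1, hx'.1.2⟩,
        hx'.2.1⟩)
    · intro x hx y hy hxy
      have hx' := (Finset.mem_filter.1 (Finset.mem_coe.1 hx)).2
      have hy' := (Finset.mem_filter.1 (Finset.mem_coe.1 hy)).2
      simp only [Prod.mk.injEq] at hxy
      obtain ⟨⟨e1, e2⟩, e3⟩ := hxy
      ext
      · exact e1
      · exact e2
      · exact e3
      · linarith
  rw [Finset.card_product, Finset.card_product] at h1
  rw [sq]
  exact_mod_cast h1

/-- The energy of a set of squares up to `N` and any set of integers of absolute value at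
most `N`. -/
theorem energy_bounded (N : ℕ) (hN : 2 ≤ N) (A B : Finset ℤ)
    (hA : ∀ a ∈ A, IsSquare a ∧ a ≤ N) (hB : ∀ b ∈ B, |b| ≤ N) :
    (Finset.addEnergy A B : ℝ) ≤ 1000000 * Real.log N * (A.card * (B.card : ℝ) ^ (3 / 2 : ℝ)) := by
  have hNR : (2 : ℝ) ≤ N := by exact_mod_cast hN
  rcases A.eq_empty_or_nonempty with rfl | hA0
  · simpa using energy_triv1 ∅ B
  rcases B.eq_empty_or_nonempty with rfl | hB0
  · have h1 := energy_triv1 A ∅
    have h2 : (0 : ℝ) ^ (3 / 2 : ℝ) = 0 := Real.zero_rpow (by norm_num)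
    simp only [Finset.card_empty, Nat.cast_zero] at h1 ⊢
    rw [h2]
    simpa using h1
  set m : ℝ := (B.card : ℝ) with hm
  set n : ℝ := (A.card : ℝ) with hn
  set L : ℝ := Real.log (2 * N) with hLdef
  have hBc : 0 < B.card := Finset.card_pos.2 hB0
  have hm0 : 0 < m := by rw [hm]; exact_mod_cast hBc
  have hn1 : 1 ≤ n := by rw [hn]; exact_mod_cast Finset.card_pos.2 hA0
  have hs : √m ^ 2 = m := Real.sq_sqrt hm0.le
  have hs0 : 0 < √m := Real.sqrt_pos.2 hm0
  have hm32 : m ^ (3 / 2 : ℝ) = m * √m := by
    rw [Real.sqrt_eq_rpow, show (3 / 2 : ℝ) = 1 + 1 / 2 by norm_num, Real.rpow_add hm0,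
      Real.rpow_one]
  have hL1 : 1 ≤ L := by
    have h2 : Real.log (Real.exp 1) ≤ L := by
      refine Real.log_le_log (Real.exp_pos 1) ?_
      have := Real.exp_one_lt_d9
      linarith
    rwa [Real.log_exp] at h2
  have hL2 : L ≤ 2 * Real.log N := by
    rw [hLdef, Real.log_mul (by norm_num) (by positivity)]
    have := Real.log_le_log (by norm_num) hNR
    linarith
  have hAabs : ∀ a ∈ A, |a| ≤ N := by
    intro a ha
    obtain ⟨⟨r, hr⟩, h2⟩ := hA a ha
    rw [abs_of_nonneg (by rw [hr]; exact mul_self_nonneg r)]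
    exact h2
  rw [hm32]
  have key : (Finset.addEnergy A B : ℝ) ≤ 320000 * L * (n * (m * √m)) := by
    by_cases h1 : √m < 320000
    · calc (Finset.addEnergy A B : ℝ) ≤ n * m ^ 2 := energy_triv1 A B
        _ = √m * (n * (m * √m)) := by
            have : √m * (n * (m * √m)) = n * m * √m ^ 2 := by ring
            rw [this, hs]
            ring
        _ ≤ (320000 * L) * (n * (m * √m)) := by
            refine mul_le_mul_of_nonneg_right ?_ (by positivity)
            linarith
        _ = _ := by ring
    have h1' : 320000 ≤ √m := not_lt.1 h1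
    by_cases h2 : n < √m
    · calc (Finset.addEnergy A B : ℝ) ≤ n ^ 2 * m := energy_triv2 A B
        _ = n * (m * n) := by ring
        _ ≤ n * (m * √m) := by gcongr
        _ ≤ 320000 * L * (n * (m * √m)) := by
            have h3 : 0 ≤ n * (m * √m) := by positivity
            have h4 : 1 ≤ 320000 * L := by linarith
            nlinarith
    have h2' : √m ≤ n := not_lt.1 h2
    set Y : ℕ := ⌈8 * L * √m⌉₊ with hYdef
    have hYge : 8 * L * √m ≤ (Y : ℝ) := Nat.le_ceil _
    have hYbig : 2560000 ≤ Y := by
      have h3 : (2560000 : ℝ) ≤ (Y : ℝ) := by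
        refine le_trans ?_ hYge
        calc (2560000 : ℝ) = 8 * 1 * 320000 := by norm_num
          _ ≤ 8 * L * √m := by gcongr
      exact_mod_cast h3
    have hcard := pset_card Y hYbig
    have hYR : (2560000 : ℝ) ≤ (Y : ℝ) := by exact_mod_cast hYbig
    have hlogY : 0 < Real.log (Y : ℝ) := Real.log_pos (by linarith)
    set K : ℝ := ((pset Y).card : ℝ) with hK
    have hK0 : 0 < K := lt_of_lt_of_le (by positivity) hcard
    have hKc : 0 < (pset Y).card := by
      have h2 := hK0
      rw [hK] at h2
      exact_mod_cast h2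
    have hsmall : 2 * L / Real.log Y ≤ K / √m := by
      rw [le_div_iff₀ hs0]
      refine le_trans ?_ hcard
      rw [div_mul_eq_mul_div, div_le_div_iff₀ hlogY (by positivity)]
      have h3 : 8 * L * √m * Real.log Y ≤ (Y : ℝ) * Real.log Y :=
        mul_le_mul_of_nonneg_right hYge hlogY.le
      linarith
    have hYle : (Y : ℝ) ≤ 9 * L * √m := by
      have h3 : (Y : ℝ) < 8 * L * √m + 1 := Nat.ceil_lt_add_one (by positivity)
      have h4 : 1 * 1 ≤ L * √m := mul_le_mul hL1 (by linarith) (by norm_num) (by linarith)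
      linarith
    have hmain := energy_AB A B (fun a ha => (hA a ha).1) (pset Y) (fun p hp => by
      obtain ⟨h3, h4, h5⟩ := mem_pset.1 hp
      refine ⟨h4, ?_⟩
      rintro rfl
      omega) Y (Nat.cast_nonneg Y) (fun p hp => by exact_mod_cast (mem_pset.1 hp).1) hKc
    rw [← hK, ← hn, ← hm] at hmain
    have hbad : ((A.filter fun a => 3 / 4 * K < wt (pset Y) a).card : ℝ) ≤ 1 := by
      have h3 : (A.filter fun a => 3 / 4 * K < wt (pset Y) a).card ≤ 1 := by
        have h4 : (A.filter fun a => 3 / 4 * K < wt (pset Y) a) ⊆ {0} := by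
          intro a ha
          obtain ⟨h5, h6⟩ := Finset.mem_filter.1 ha
          rw [Finset.mem_singleton]
          by_contra hne
          have h7 := wt_pset_le Y N (by omega) a hne (by
            have h8 := hAabs a h5
            have h9 : (0 : ℤ) ≤ N := Int.natCast_nonneg N
            linarith)
          have h8 : K / √m ≤ K / 2 := div_le_div_of_nonneg_left hK0.le (by norm_num) (by linarith)
          linarith
        simpa using Finset.card_le_card h4
      exact_mod_cast h3
    have hSW : SW (pset Y) B ≤ 2 * m * K ^ 2 := by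
      have h3 := sum_wt_sq_le (pset Y) B (fun i : ℤ => i) (K / √m) 1 ?_ ?_
      · refine h3.trans (le_of_eq ?_)
        rw [← hm, ← hK, div_pow, hs]
        field_simp
        ring
      · intro i hi j hj hij
        refine (wt_pset_le Y N (by omega) (i - j) (sub_ne_zero.2 hij) ?_).trans hsmall
        have h4 := abs_sub i j
        have h5 := hB i hi
        have h6 := hB j hj
        linarith
      · intro i _ R _ hR
        have h4 : R.card ≤ 1 := by
          rw [Finset.card_le_one]
          intro x hx y hy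
          exact (hR x hx).symm.trans (hR y hy)
        exact_mod_cast h4
    have hSW' : SW (pset Y) B / K ^ 2 ≤ 2 * m := by
      rw [div_le_iff₀ (by positivity)]
      exact hSW
    have hSW0 : 0 ≤ SW (pset Y) B / K ^ 2 := div_nonneg (SW_nonneg _ _) (by positivity)
    have t1 : ((A.filter fun a => 3 / 4 * K < wt (pset Y) a).card : ℝ) * m ^ 2 ≤ 1 * m ^ 2 :=
      mul_le_mul_of_nonneg_right hbad (by positivity)
    have t2 : 16 * (Y : ℝ) * n * (SW (pset Y) B / K ^ 2) ≤ 16 * (9 * L * √m) * n * (2 * m) :=
      mul_le_mul (by gcongr) hSW' hSW0 (by positivity)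
    calc (Finset.addEnergy A B : ℝ)
        ≤ ((A.filter fun a => 3 / 4 * K < wt (pset Y) a).card : ℝ) * m ^ 2 +
          16 * Y * n * (SW (pset Y) B / K ^ 2) := hmain
      _ ≤ 1 * m ^ 2 + 16 * (9 * L * √m) * n * (2 * m) := add_le_add t1 t2
      _ = √m * (m * √m) + 288 * (L * (n * (m * √m))) := by
          have : √m * (m * √m) = m * √m ^ 2 := by ring
          rw [this, hs]
          ring
      _ ≤ n * (m * √m) + 288 * (L * (n * (m * √m))) := by gcongr
      _ ≤ 320000 * L * (n * (m * √m)) := by
          have h3 : 0 ≤ n * (m * √m) := by positivity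
          nlinarith
  refine key.trans ?_
  have h3 : 0 ≤ n * (m * √m) := by positivity
  have h4 : 320000 * L ≤ 1000000 * Real.log N := by linarith
  exact mul_le_mul_of_nonneg_right h4 h3

end Pool.Agent.MP_af3031_nt
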